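import Pool.Agent.V5helper80.One.Log

/-!
# Schedules: every relation has a latest letter
-/

set_option autoImplicit false

namespace Pool.Agent.V5helper80.Wt

open Monoid (CoprodI)
open Monoid.CoprodI (of)
open Pool.Agent.V5helper80.Rel Pool.Agent.V5helper80.One
open Pool.Agent.TH625.LOG

/-- the latest letter of a relation -/
inductive Ty
  | l
  | t
  | i
  deriving DecidableEq

variable {I E : Type} {G : I → Type} [∀ i, Group (G i)] {T : Hg G}

/-- a schedule -/
structure Sch (D : Dat I E G) (r : I) where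
  q : ℕ
  hq : 0 < q
  S : I → ℕ
  ty : E → Ty
  hl : ∀ e, ty e = .l → D.cl e ≠ r ∧ (D.ct e = r ∨ S (D.cl e) < S (D.ct e)) ∧
    (D.ci e = r ∨ S (D.cl e) < q + S (D.ci e))
  ht : ∀ e, ty e = .t → D.ct e ≠ r ∧ (D.cl e = r ∨ S (D.ct e) < S (D.cl e)) ∧
    (D.ci e = r ∨ S (D.ct e) < q + S (D.ci e))
  hi : ∀ e, ty e = .i → D.ci e ≠ r ∧ (D.cl e = r ∨ q + S (D.ci e) < S (D.cl e)) ∧
    (D.ct e = r ∨ q + S (D.ci e) < S (D.ct e))

section
variable {D : Dat I E G} {r : I} (C : Sch D r)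

/-- the time of a potential -/
def Sch.tm (v : I) (j : ℤ) : ℤ := C.q * j - C.S v

/-- the vertex of the latest letter -/
def Sch.ph (e : E) : I :=
  match C.ty e with
  | .l => D.cl e
  | .t => D.ct e
  | .i => D.ci e

/-- the offset of the latest letter -/
def Sch.off (e : E) : ℤ :=
  match C.ty e with
  | .l => 2
  | .t => 2
  | .i => 1

/-- the weight of the latest letter -/
def Sch.m (e : E) : ℕ :=
  match C.ty e with
  | .l => C.S (D.cl e)
  | .t => C.S (D.ct e)
  | .i => C.q + C.S (D.ci e)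

/-- the time of the relation -/
def Sch.top (e : E) (k : ℤ) : ℤ := C.q * (k + 2) - C.m e

theorem Sch.ph_ne (e : E) : C.ph e ≠ r := by
  unfold Sch.ph
  cases h : C.ty e with
  | l => exact (C.hl e h).1
  | t => exact (C.ht e h).1
  | i => exact (C.hi e h).1

theorem Sch.tm_ph (e : E) (k : ℤ) : C.tm (C.ph e) (k + C.off e) = C.top e k := by
  unfold Sch.tm Sch.top Sch.ph Sch.off Sch.m
  cases h : C.ty e with
  | l => simp only
  | t => simp only
  | i =>
    simp only
    push_cast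
    ring

theorem Sch.q_pos : (0 : ℤ) < C.q := by exact_mod_cast C.hq

/-- known potentials -/
def Sch.kn (n : ℤ) (v : I) (j : ℤ) : Prop := v = r ∨ C.tm v j < n

theorem Sch.kn_pred {n : ℤ} {v : I} {j : ℤ} (h : C.kn n v (j + 1)) : C.kn n v j := by
  rcases h with h | h
  · exact Or.inl h
  · refine Or.inr (lt_trans ?_ h)
    unfold Sch.tm
    have := C.q_pos
    nlinarith

theorem Sch.kn_mono {n n' : ℤ} (hn : n ≤ n') {v : I} {j : ℤ} (h : C.kn n v j) : C.kn n' v j :=
  h.imp id fun h => lt_of_lt_of_le h hn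

/-- the lower letters of a relation of type `l` -/
theorem Sch.low_l (e : E) (k : ℤ) (h : C.ty e = .l) :
    C.kn (C.top e k) (D.cl e) (k + 1) ∧ C.kn (C.top e k) (D.ci e) (k + 1) ∧
      C.kn (C.top e k) (D.ct e) (k + 1 + 1) := by
  obtain ⟨_, h2, h3⟩ := C.hl e h
  have hq := C.q_pos
  have hm : C.m e = C.S (D.cl e) := by unfold Sch.m; rw [h]
  unfold Sch.kn Sch.tm Sch.top
  rw [hm]
  refine ⟨Or.inr (by nlinarith), h3.imp id fun h => ?_, h2.imp id fun h => ?_⟩
  · have : (C.S (D.cl e) : ℤ) < C.q + C.S (D.ci e) := by exact_mod_cast h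
    nlinarith
  · have : (C.S (D.cl e) : ℤ) < C.S (D.ct e) := by exact_mod_cast h
    nlinarith

/-- the lower letters of a relation of type `t` -/
theorem Sch.low_t (e : E) (k : ℤ) (h : C.ty e = .t) :
    C.kn (C.top e k) (D.ct e) (k + 1) ∧ C.kn (C.top e k) (D.ci e) (k + 1) ∧
      C.kn (C.top e k) (D.cl e) (k + 1 + 1) := by
  obtain ⟨_, h2, h3⟩ := C.ht e h
  have hq := C.q_pos
  have hm : C.m e = C.S (D.ct e) := by unfold Sch.m; rw [h]
  unfold Sch.kn Sch.tm Sch.top
  rw [hm]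
  refine ⟨Or.inr (by nlinarith), h3.imp id fun h => ?_, h2.imp id fun h => ?_⟩
  · have : (C.S (D.ct e) : ℤ) < C.q + C.S (D.ci e) := by exact_mod_cast h
    nlinarith
  · have : (C.S (D.ct e) : ℤ) < C.S (D.cl e) := by exact_mod_cast h
    nlinarith

/-- the lower letters of a relation of type `i` -/
theorem Sch.low_i (e : E) (k : ℤ) (h : C.ty e = .i) :
    C.kn (C.top e k) (D.ci e) k ∧ C.kn (C.top e k) (D.cl e) (k + 1 + 1) ∧
      C.kn (C.top e k) (D.ct e) (k + 1 + 1) := by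
  obtain ⟨_, h2, h3⟩ := C.hi e h
  have hq := C.q_pos
  have hm : C.m e = C.q + C.S (D.ci e) := by unfold Sch.m; rw [h]
  unfold Sch.kn Sch.tm Sch.top
  rw [hm]
  push_cast
  refine ⟨Or.inr (by nlinarith), h2.imp id fun h => ?_, h3.imp id fun h => ?_⟩
  · have : (C.q : ℤ) + C.S (D.ci e) < C.S (D.cl e) := by exact_mod_cast h
    nlinarith
  · have : (C.q : ℤ) + C.S (D.ci e) < C.S (D.ct e) := by exact_mod_cast h
    nlinarith

end

/-- one equation -/
def Eq1 (D : Dat I E G) {X : Type} [Group X] (α : ∀ i, (T.ht i).ker →* X) (Y : I → ℤ → X) (e : E)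
    (k : ℤ) : Prop :=
  cc T α Y (D.ci e) k (D.x e) * cc T α Y (D.cl e) (k + 1) (D.y e) =
    cc T α Y (D.cl e) k (D.y' e) * cc T α Y (D.ct e) (k + 1) (D.z e)

section
variable {D : Dat I E G} {r : I} (C : Sch D r) {X : Type} [Group X]

/-- the value of the latest letter -/
def Sch.val (C : Sch D r) (α : ∀ i, (T.ht i).ker →* X) (Y : I → ℤ → X) (e : E) (k : ℤ) : X :=
  match C.ty e with
  | .l => (α _ (T.ka _ (k + 1) (D.y e)))⁻¹ * Y (D.cl e) (k + 1) *
      (cc T α Y (D.ci e) k (D.x e))⁻¹ * cc T α Y (D.cl e) k (D.y' e) *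
        cc T α Y (D.ct e) (k + 1) (D.z e)
  | .t => (α _ (T.ka _ (k + 1) (D.z e)))⁻¹ * Y (D.ct e) (k + 1) *
      (cc T α Y (D.cl e) k (D.y' e))⁻¹ * cc T α Y (D.ci e) k (D.x e) *
        cc T α Y (D.cl e) (k + 1) (D.y e)
  | .i => (α _ (T.ka _ k (D.x e)))⁻¹ * Y (D.ci e) k *
      cc T α Y (D.cl e) k (D.y' e) * cc T α Y (D.ct e) (k + 1) (D.z e) *
        (cc T α Y (D.cl e) (k + 1) (D.y e))⁻¹

theorem Sch.eq_iff (hD : AllOne T D) (α : ∀ i, (T.ht i).ker →* X) (Y : I → ℤ → X) (e : E)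
    (k : ℤ) : Eq1 D α Y e k ↔ Y (C.ph e) (k + C.off e) = C.val α Y e k := by
  obtain ⟨e1, e2, e3, e4⟩ := hD e
  unfold Sch.val Sch.ph Sch.off Eq1
  cases h : C.ty e with
  | l =>
    simp only
    have h1 : cc T α Y (D.cl e) (k + 1) (D.y e) = (Y (D.cl e) (k + 1))⁻¹ *
        α _ (T.ka _ (k + 1) (D.y e)) * Y (D.cl e) (k + 2) := by
      unfold cc
      rw [e2, show k + 1 + 1 = k + 2 by ring]
    rw [h1]
    generalize cc T α Y (D.ci e) k (D.x e) = A
    generalize cc T α Y (D.cl e) k (D.y' e) = B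
    generalize cc T α Y (D.ct e) (k + 1) (D.z e) = B'
    constructor
    · intro h2
      calc Y (D.cl e) (k + 2) = (α _ (T.ka _ (k + 1) (D.y e)))⁻¹ * Y (D.cl e) (k + 1) * A⁻¹ *
          (A * ((Y (D.cl e) (k + 1))⁻¹ * α _ (T.ka _ (k + 1) (D.y e)) * Y (D.cl e) (k + 2))) := by
            group
        _ = _ := by rw [h2]; group
    · intro h2
      rw [h2]
      group
  | t =>
    simp only
    have h1 : cc T α Y (D.ct e) (k + 1) (D.z e) = (Y (D.ct e) (k + 1))⁻¹ *
        α _ (T.ka _ (k + 1) (D.z e)) * Y (D.ct e) (k + 2) := by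
      unfold cc
      rw [e4, show k + 1 + 1 = k + 2 by ring]
    rw [h1]
    generalize cc T α Y (D.ci e) k (D.x e) = A
    generalize cc T α Y (D.cl e) k (D.y' e) = B
    generalize cc T α Y (D.cl e) (k + 1) (D.y e) = B'
    constructor
    · intro h2
      calc Y (D.ct e) (k + 2) = (α _ (T.ka _ (k + 1) (D.z e)))⁻¹ * Y (D.ct e) (k + 1) * B⁻¹ *
          (B * ((Y (D.ct e) (k + 1))⁻¹ * α _ (T.ka _ (k + 1) (D.z e)) * Y (D.ct e) (k + 2))) := by
            group
        _ = _ := by rw [← h2]; group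
    · intro h2
      rw [h2]
      group
  | i =>
    simp only
    have h1 : cc T α Y (D.ci e) k (D.x e) = (Y (D.ci e) k)⁻¹ *
        α _ (T.ka _ k (D.x e)) * Y (D.ci e) (k + 1) := by
      unfold cc
      rw [e1]
    rw [h1]
    generalize cc T α Y (D.cl e) (k + 1) (D.y e) = A
    generalize cc T α Y (D.cl e) k (D.y' e) = B
    generalize cc T α Y (D.ct e) (k + 1) (D.z e) = B'
    constructor
    · intro h2
      calc Y (D.ci e) (k + 1) = (α _ (T.ka _ k (D.x e)))⁻¹ * Y (D.ci e) k *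
          ((Y (D.ci e) k)⁻¹ * α _ (T.ka _ k (D.x e)) * Y (D.ci e) (k + 1) * A) * A⁻¹ := by
            group
        _ = _ := by rw [h2]; group
    · intro h2
      rw [h2]
      group

theorem Sch.val_map (hD : AllOne T D) {X' : Type} [Group X'] (F : X →* X')
    {α : ∀ i, (T.ht i).ker →* X} {Y : I → ℤ → X} {α' : ∀ i, (T.ht i).ker →* X'}
    {Y' : I → ℤ → X'} (hα : ∀ i g, F (α i g) = α' i g) (e : E) (k : ℤ)
    (hY : ∀ v j, C.kn (C.top e k) v j → F (Y v j) = Y' v j) :
    F (C.val α Y e k) = C.val α' Y' e k := by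
  obtain ⟨e1, e2, e3, e4⟩ := hD e
  unfold Sch.val
  cases h : C.ty e with
  | l =>
    obtain ⟨h1, h2, h3⟩ := C.low_l e k h
    simp only [map_mul, map_inv]
    rw [hα, hY _ _ h1,
      cc_map F hα _ _ _ (hY _ _ (C.kn_pred h2)) (by rw [e1]; exact hY _ _ h2),
      cc_map F hα _ _ _ (hY _ _ (C.kn_pred h1)) (by rw [e3]; exact hY _ _ h1),
      cc_map F hα _ _ _ (hY _ _ (C.kn_pred h3)) (by rw [e4]; exact hY _ _ h3)]
  | t =>
    obtain ⟨h1, h2, h3⟩ := C.low_t e k h
    simp only [map_mul, map_inv]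
    rw [hα, hY _ _ h1,
      cc_map F hα _ _ _ (hY _ _ (C.kn_pred (C.kn_pred h3)))
        (by rw [e3]; exact hY _ _ (C.kn_pred h3)),
      cc_map F hα _ _ _ (hY _ _ (C.kn_pred h2)) (by rw [e1]; exact hY _ _ h2),
      cc_map F hα _ _ _ (hY _ _ (C.kn_pred h3)) (by rw [e2]; exact hY _ _ h3)]
  | i =>
    obtain ⟨h1, h2, h3⟩ := C.low_i e k h
    simp only [map_mul, map_inv]
    rw [hα, hY _ _ h1,
      cc_map F hα _ _ _ (hY _ _ (C.kn_pred (C.kn_pred h2)))
        (by rw [e3]; exact hY _ _ (C.kn_pred h2)),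
      cc_map F hα _ _ _ (hY _ _ (C.kn_pred h3)) (by rw [e4]; exact hY _ _ h3),
      cc_map F hα _ _ _ (hY _ _ (C.kn_pred h2)) (by rw [e2]; exact hY _ _ h2)]

theorem Sch.eq_map (hD : AllOne T D) {X' : Type} [Group X'] (F : X →* X')
    {α : ∀ i, (T.ht i).ker →* X} {Y : I → ℤ → X} {α' : ∀ i, (T.ht i).ker →* X'}
    {Y' : I → ℤ → X'} (hα : ∀ i g, F (α i g) = α' i g) (e : E) (k n : ℤ) (hn : C.top e k < n)
    (hY : ∀ v j, C.kn n v j → F (Y v j) = Y' v j) (h : Eq1 D α Y e k) : Eq1 D α' Y' e k := by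
  rw [C.eq_iff hD] at h ⊢
  rw [← C.val_map hD F hα e k fun v j hv => hY v j (C.kn_mono hn.le hv), ← h, hY]
  exact Or.inr (by rw [C.tm_ph]; exact hn)

open Classical in
/-- the next unit of time -/
noncomputable def Sch.stp (C : Sch D r) (O : E → Prop) (n : ℤ) (f : X)
    (α : ∀ i, (T.ht i).ker →* X) (Y : I → ℤ → X) : I → ℤ → X := fun v j =>
  if v ≠ r ∧ C.tm v j = n then
    (if h : ∃ e, O e ∧ C.ph e = v then C.val α Y h.choose (j - C.off h.choose) else f)
  else Y v j

section stp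
variable {O : E → Prop} {n : ℤ} {f : X} {α : ∀ i, (T.ht i).ker →* X} {Y : I → ℤ → X}

theorem Sch.stp_kn {v : I} {j : ℤ} (h : C.kn n v j) : C.stp O n f α Y v j = Y v j := by
  unfold Sch.stp
  rw [if_neg]
  rintro ⟨h1, h2⟩
  rcases h with h | h
  · exact h1 h
  · exact absurd h2 h.ne

theorem Sch.stp_top (hinj : ∀ e e', O e → O e' → C.ph e = C.ph e' → e = e') {e : E} (he : O e)
    {k : ℤ} (hk : C.top e k = n) :
    C.stp O n f α Y (C.ph e) (k + C.off e) = C.val α Y e k := by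
  unfold Sch.stp
  rw [if_pos ⟨C.ph_ne e, by rw [C.tm_ph]; exact hk⟩]
  have h : ∃ e', O e' ∧ C.ph e' = C.ph e := ⟨e, he, rfl⟩
  rw [dif_pos h]
  have h1 : h.choose = e := hinj _ _ h.choose_spec.1 he h.choose_spec.2
  rw [h1, add_sub_cancel_right]

theorem Sch.stp_free {v : I} {j : ℤ} (h1 : v ≠ r) (h2 : C.tm v j = n)
    (h3 : ¬ ∃ e, O e ∧ C.ph e = v) : C.stp O n f α Y v j = f := by
  unfold Sch.stp
  rw [if_pos ⟨h1, h2⟩, dif_neg h3]

theorem Sch.eq_stp_lt (hD : AllOne T D) {e : E} {k : ℤ} (hk : C.top e k < n)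
    (h : Eq1 D α Y e k) : Eq1 D α (C.stp O n f α Y) e k :=
  C.eq_map hD (MonoidHom.id X) (fun _ _ => rfl) e k n hk (fun _ _ hv => (C.stp_kn hv).symm) h

theorem Sch.val_stp (hD : AllOne T D) {e : E} {k : ℤ} (hk : C.top e k = n) :
    C.val α (C.stp O n f α Y) e k = C.val α Y e k :=
  (C.val_map hD (MonoidHom.id X) (fun _ _ => rfl) e k
    (fun _ _ hv => (C.stp_kn (by rw [← hk]; exact hv)).symm)).symm

theorem Sch.eq_stp_top (hD : AllOne T D)
    (hinj : ∀ e e', O e → O e' → C.ph e = C.ph e' → e = e') {e : E} (he : O e) {k : ℤ}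
    (hk : C.top e k = n) : Eq1 D α (C.stp O n f α Y) e k := by
  rw [C.eq_iff hD, C.val_stp hD hk, C.stp_top hinj he hk]

theorem Sch.eq_stp_col (hD : AllOne T D)
    (hinj : ∀ e e', O e → O e' → C.ph e = C.ph e' → e = e') {e1 e0 : E} (he : O e1) {k1 k0 : ℤ}
    (hph : C.ph e0 = C.ph e1) (hk1 : C.top e1 k1 = n) (hk0 : C.top e0 k0 = n)
    (hv : C.val α Y e0 k0 = C.val α Y e1 k1) : Eq1 D α (C.stp O n f α Y) e0 k0 := by
  rw [C.eq_iff hD, C.val_stp hD hk0, hv, ← C.stp_top (f := f) hinj he hk1, hph]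
  congr 1
  have h1 := C.tm_ph e1 k1
  have h0 := C.tm_ph e0 k0
  rw [hk1] at h1
  rw [hk0, hph] at h0
  unfold Sch.tm at h0 h1
  have hq := C.q_pos
  have : (C.q : ℤ) * (k0 + C.off e0) = C.q * (k1 + C.off e1) := by linarith
  exact mul_left_cancel₀ hq.ne' this

end stp

/-- the configuration of a group with potentials up to the time `n` -/
structure Cf (C : Sch D r) (A n : ℤ) (a : ∀ i, (T.ht i).ker →* X) (Y : I → ℤ → X) : Prop where
  gauge : ∀ j, Y r j = 1
  eqs : ∀ e k, A ≤ C.top e k → C.top e k < n → Eq1 D a Y e k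
  univ : ∀ (H : Type) [Group H] (α : ∀ i, (T.ht i).ker →* H) (Z : I → ℤ → H),
    (∀ j, Z r j = 1) → (∀ e k, A ≤ C.top e k → C.top e k < n → Eq1 D α Z e k) →
    ∃ F : X →* H, (∀ i g, F (a i g) = α i g) ∧ ∀ v j, C.kn n v j → F (Y v j) = Z v j

variable {C}

/-- a unit of time without events -/
theorem Cf.plain (hD : AllOne T D) {A n : ℤ} (hAn : A ≤ n) {a : ∀ i, (T.ht i).ker →* X}
    {Y : I → ℤ → X} (h : Cf C A n a Y) {O : E → Prop}
    (hinj : ∀ e e', O e → O e' → C.ph e = C.ph e' → e = e') (f : X)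
    (h1 : ∀ v j, v ≠ r → C.tm v j = n → ∃ e, O e ∧ C.ph e = v)
    (h2 : ∀ e k, C.top e k = n → O e) : Cf C A (n + 1) a (C.stp O n f a Y) := by
  refine ⟨fun j => (C.stp_kn (Or.inl rfl)).trans (h.gauge j), fun e k hA hn => ?_, ?_⟩
  · rcases (Int.lt_add_one_iff.1 hn).lt_or_eq with h3 | h3
    · exact C.eq_stp_lt hD h3 (h.eqs e k hA h3)
    · exact C.eq_stp_top hD hinj (h2 e k h3) h3
  · intro H _ α Z hZr hE
    obtain ⟨F, hFa, hFY⟩ := h.univ H α Z hZr fun e k hA hn => hE e k hA (by omega)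
    refine ⟨F, hFa, fun v j hv => ?_⟩
    by_cases hk : C.kn n v j
    · rw [C.stp_kn hk, hFY v j hk]
    · have hvr : v ≠ r := fun h => hk (Or.inl h)
      have htm : C.tm v j = n := by
        rcases hv with hv | hv
        · exact absurd hv hvr
        · have : ¬ C.tm v j < n := fun h => hk (Or.inr h)
          omega
      obtain ⟨e, he, rfl⟩ := h1 v j hvr htm
      have htop : C.top e (j - C.off e) = n := by
        rw [← C.tm_ph, sub_add_cancel]
        exact htm
      have h3 := C.stp_top (f := f) (α := a) (Y := Y) hinj he htop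
      rw [sub_add_cancel] at h3
      rw [h3, C.val_map hD F hFa e _ fun v' j' hv' => hFY v' j' (by rw [htop] at hv'; exact hv')]
      have h4 := (C.eq_iff hD α Z e (j - C.off e)).1 (hE e _ (by omega) (by omega))
      rw [sub_add_cancel] at h4
      exact h4.symm

/-- the arrival of a new letter -/
theorem Cf.arrive (hD : AllOne T D) {A n : ℤ} (hAn : A ≤ n) {a : ∀ i, (T.ht i).ker →* X}
    {Y : I → ℤ → X} (h : Cf C A n a Y) {O : E → Prop}
    (hinj : ∀ e e', O e → O e' → C.ph e = C.ph e' → e = e') {s : I} (hsr : s ≠ r) {j0 : ℤ}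
    (hs : C.tm s j0 = n) (hsO : ¬ ∃ e, O e ∧ C.ph e = s)
    (h1 : ∀ v j, v ≠ r → v ≠ s → C.tm v j = n → ∃ e, O e ∧ C.ph e = v)
    (h2 : ∀ e k, C.top e k = n → O e) :
    Cf C A (n + 1) (fun i => inA.comp (a i))
      (C.stp O n (zz : Ex X) (fun i => inA.comp (a i)) fun v j => inA (Y v j)) := by
  refine ⟨fun j => (C.stp_kn (Or.inl rfl)).trans (by rw [h.gauge j, map_one]),
    fun e k hA hn => ?_, ?_⟩
  · rcases (Int.lt_add_one_iff.1 hn).lt_or_eq with h3 | h3
    · refine C.eq_stp_lt hD h3 ?_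
      exact C.eq_map hD inA (fun _ _ => rfl) e k n h3 (fun _ _ _ => rfl) (h.eqs e k hA h3)
    · exact C.eq_stp_top hD hinj (h2 e k h3) h3
  · intro H _ α Z hZr hE
    obtain ⟨F, hFa, hFY⟩ := h.univ H α Z hZr fun e k hA hn => hE e k hA (by omega)
    let F' : Ex X →* H := liftE F (Z s j0)
    have hF'a : ∀ i g, F' ((fun i => inA.comp (a i)) i g) = α i g := fun i g =>
      (liftE_inA F (Z s j0) _).trans (hFa i g)
    have hF'Y : ∀ v j, C.kn n v j → F' (inA (Y v j)) = Z v j := fun v j hv =>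
      (liftE_inA F (Z s j0) _).trans (hFY v j hv)
    refine ⟨F', hF'a, fun v j hv => ?_⟩
    by_cases hk : C.kn n v j
    · rw [C.stp_kn hk]
      exact hF'Y v j hk
    · have hvr : v ≠ r := fun h => hk (Or.inl h)
      have htm : C.tm v j = n := by
        rcases hv with hv | hv
        · exact absurd hv hvr
        · have : ¬ C.tm v j < n := fun h => hk (Or.inr h)
          omega
      by_cases hvs : v = s
      · subst hvs
        rw [C.stp_free hvr htm hsO]
        have hj : j = j0 := by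
          unfold Sch.tm at htm hs
          have : (C.q : ℤ) * j = C.q * j0 := by linarith
          exact mul_left_cancel₀ C.q_pos.ne' this
        rw [hj]
        exact liftE_zz F (Z v j0)
      · obtain ⟨e, he, rfl⟩ := h1 v j hvr hvs htm
        have htop : C.top e (j - C.off e) = n := by
          rw [← C.tm_ph, sub_add_cancel]
          exact htm
        have h3 := C.stp_top (f := (zz : Ex X)) (α := fun i => inA.comp (a i))
          (Y := fun v j => inA (Y v j)) hinj he htop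
        rw [sub_add_cancel] at h3
        rw [h3, C.val_map hD F' hF'a e _
          fun v' j' hv' => hF'Y v' j' (by rw [htop] at hv'; exact hv')]
        have h4 := (C.eq_iff hD α Z e (j - C.off e)).1 (hE e _ (by omega) (by omega))
        rw [sub_add_cancel] at h4
        exact h4.symm

/-- a collision -/
theorem Cf.collide (hD : AllOne T D) {A n : ℤ} (hAn : A ≤ n) {a : ∀ i, (T.ht i).ker →* X}
    {Y : I → ℤ → X} (h : Cf C A n a Y) {O : E → Prop}
    (hinj : ∀ e e', O e → O e' → C.ph e = C.ph e' → e = e') {e0 e1 : E} {k0 k1 : ℤ}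
    (he1 : O e1) (hph : C.ph e0 = C.ph e1) (hk0 : C.top e0 k0 = n) (hk1 : C.top e1 k1 = n)
    (h1 : ∀ v j, v ≠ r → C.tm v j = n → ∃ e, O e ∧ C.ph e = v)
    (h2 : ∀ e k, C.top e k = n → O e ∨ e = e0)
    (mk : X →* X ⧸ Subgroup.normalClosure {(C.val a Y e1 k1)⁻¹ * C.val a Y e0 k0})
    (hmk : mk = QuotientGroup.mk' _) :
    Cf C A (n + 1) (fun i => mk.comp (a i))
      (C.stp O n 1 (fun i => mk.comp (a i)) fun v j => mk (Y v j)) := by
  have hval : C.val (fun i => mk.comp (a i)) (fun v j => mk (Y v j)) e0 k0 =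
      C.val (fun i => mk.comp (a i)) (fun v j => mk (Y v j)) e1 k1 := by
    rw [← C.val_map hD mk (α := a) (Y := Y) (fun _ _ => rfl) e0 k0 (fun _ _ _ => rfl),
      ← C.val_map hD mk (α := a) (Y := Y) (fun _ _ => rfl) e1 k1 (fun _ _ _ => rfl)]
    have h3 : mk ((C.val a Y e1 k1)⁻¹ * C.val a Y e0 k0) = 1 := by
      rw [hmk]
      exact (QuotientGroup.eq_one_iff _).2 (Subgroup.subset_normalClosure
        (Set.mem_singleton _))
    rw [map_mul, map_inv, inv_mul_eq_one] at h3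
    exact h3.symm
  refine ⟨fun j => (C.stp_kn (Or.inl rfl)).trans (by rw [h.gauge j, map_one]),
    fun e k hA hn => ?_, ?_⟩
  · rcases (Int.lt_add_one_iff.1 hn).lt_or_eq with h3 | h3
    · refine C.eq_stp_lt hD h3 ?_
      exact C.eq_map hD mk (fun _ _ => rfl) e k n h3 (fun _ _ _ => rfl) (h.eqs e k hA h3)
    · rcases h2 e k h3 with h4 | h4
      · exact C.eq_stp_top hD hinj h4 h3
      · subst h4
        have hkk : k = k0 := by
          unfold Sch.top at h3 hk0
          have : (C.q : ℤ) * (k + 2) = C.q * (k0 + 2) := by linarith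
          have := mul_left_cancel₀ C.q_pos.ne' this
          omega
        subst hkk
        exact C.eq_stp_col hD hinj he1 hph hk1 hk0 hval
  · intro H _ α Z hZr hE
    obtain ⟨F, hFa, hFY⟩ := h.univ H α Z hZr fun e k hA hn => hE e k hA (by omega)
    have hval' : C.val α Z e0 k0 = C.val α Z e1 k1 := by
      rw [← (C.eq_iff hD α Z e0 k0).1 (hE e0 k0 (by omega) (by omega)),
        ← (C.eq_iff hD α Z e1 k1).1 (hE e1 k1 (by omega) (by omega)), hph]
      congr 1
      have h1 := C.tm_ph e1 k1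
      have h0 := C.tm_ph e0 k0
      rw [hk1] at h1
      rw [hk0, hph] at h0
      unfold Sch.tm at h0 h1
      have : (C.q : ℤ) * (k0 + C.off e0) = C.q * (k1 + C.off e1) := by linarith
      exact mul_left_cancel₀ C.q_pos.ne' this
    have hFw : F ((C.val a Y e1 k1)⁻¹ * C.val a Y e0 k0) = 1 := by
      rw [map_mul, map_inv, inv_mul_eq_one,
        C.val_map hD F hFa e1 k1 fun v j hv => hFY v j (by rw [hk1] at hv; exact hv),
        C.val_map hD F hFa e0 k0 fun v j hv => hFY v j (by rw [hk0] at hv; exact hv)]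
      exact hval'.symm
    let F' : (X ⧸ Subgroup.normalClosure {(C.val a Y e1 k1)⁻¹ * C.val a Y e0 k0}) →* H :=
      QuotientGroup.lift _ F (by
        intro x hx
        have h1 : Subgroup.normalClosure {(C.val a Y e1 k1)⁻¹ * C.val a Y e0 k0} ≤ F.ker :=
          Subgroup.normalClosure_le_normal (Set.singleton_subset_iff.2 hFw)
        exact h1 hx)
    have hF' : ∀ x, F' (mk x) = F x := fun x => by rw [hmk]; rfl
    have hF'a : ∀ i g, F' ((fun i => mk.comp (a i)) i g) = α i g := fun i g =>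
      (hF' _).trans (hFa i g)
    have hF'Y : ∀ v j, C.kn n v j → F' (mk (Y v j)) = Z v j := fun v j hv =>
      (hF' _).trans (hFY v j hv)
    refine ⟨F', hF'a, fun v j hv => ?_⟩
    by_cases hk : C.kn n v j
    · rw [C.stp_kn hk]
      exact hF'Y v j hk
    · have hvr : v ≠ r := fun h => hk (Or.inl h)
      have htm : C.tm v j = n := by
        rcases hv with hv | hv
        · exact absurd hv hvr
        · have : ¬ C.tm v j < n := fun h => hk (Or.inr h)
          omega
      obtain ⟨e, he, rfl⟩ := h1 v j hvr htm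
      have htop : C.top e (j - C.off e) = n := by
        rw [← C.tm_ph, sub_add_cancel]
        exact htm
      have h3 := C.stp_top (f := 1) (α := fun i => mk.comp (a i))
        (Y := fun v j => mk (Y v j)) hinj he htop
      rw [sub_add_cancel] at h3
      rw [h3, C.val_map hD F' hF'a e _
        fun v' j' hv' => hF'Y v' j' (by rw [htop] at hv'; exact hv')]
      have h4 := (C.eq_iff hD α Z e (j - C.off e)).1 (hE e _ (by omega) (by omega))
      rw [sub_add_cancel] at h4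
      exact h4.symm

end

end Pool.Agent.V5helper80.Wt
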