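import Pool.Agent.V5helper80.Wt.Rnd

/-!
# The theorem on schedules
-/

set_option autoImplicit false

namespace Pool.Agent.V5helper80.Wt

open Monoid (CoprodI)
open Monoid.CoprodI (of)
open Pool.Agent.V5helper80.Rel Pool.Agent.V5helper80.One
open Pool.Agent.TH625.LOG

variable {I E : Type} {G : I → Type} [∀ i, Group (G i)] {T : Hg G} {D : Dat I E G} {r : I}
  {C : Sch D r}

open Classical in
/-- the beginning -/
theorem SG.base (hLI : ∀ i, LocInd (G i)) (C : Sch D r) (A : ℤ) : SG T C A A := by
  let X0 := CoprodI (BG T)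
  refine ⟨CoprodI (IG X0 I), inferInstance, fun i => (ix X0 I).comp (bk T i),
    fun v j => if v = r then 1 else il X0 I (v, j) (Multiplicative.ofAdd 1), ?_, ?_, ?_, ?_⟩
  · refine locInd_coprod fun i => ?_
    cases i with
    | none => exact locInd_BG T hLI
    | some _ => exact locInd_int
  · intro j
    exact if_pos rfl
  · intro e k h1 h2
    omega
  · intro H _ α Z hZr _
    refine ⟨iLift X0 I (bLift T α fun _ => 1) (fun x => Z x.1 x.2), fun i g => ?_,
      fun v j _ => ?_⟩
    · show iLift X0 I _ _ (ix X0 I (bk T i g)) = _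
      rw [iLift_ix, bLift_bk]
    · by_cases hv : v = r
      · simp only [if_pos hv]
        rw [map_one, hv, hZr]
      · simp only [if_neg hv]
        rw [iLift_il]

theorem SG.iter (hD : AllOne T D) {s : I} {e0 : E} (hM : Mis C s e0) {A n n' : ℤ}
    (hAn : A ≤ n) (hnn : n ≤ n') (ha : ∀ j, C.tm s j < n ∨ n' ≤ C.tm s j)
    (hc : ∀ k, C.top e0 k < n ∨ n' ≤ C.top e0 k) (h : SG T C A n) : SG T C A n' := by
  obtain ⟨d, rfl⟩ := Int.le.dest hnn
  clear hnn
  induction d with
  | zero => simpa using h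
  | succ d ih =>
    have h1 := (ih (fun k => (ha k).imp id fun h => by push_cast at h; omega)
      (fun k => (hc k).imp id fun h => by push_cast at h; omega)).plain hD hM (by omega)
      (fun k hk => by
        rcases ha k with h2 | h2
        · omega
        · push_cast at h2
          omega)
      (fun k hk => by
        rcases hc k with h2 | h2
        · omega
        · push_cast at h2
          omega)
    push_cast
    rwa [← add_assoc]

theorem SZ.iter (hD : AllOne T D) {s : I} {e0 : E} (hM : Mis C s e0) {A zt n n' : ℤ}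
    (hAn : A ≤ n) (hz : zt < n) (hnn : n ≤ n') (ha : ∀ j, C.tm s j < n ∨ n' ≤ C.tm s j)
    (hc : ∀ k, C.top e0 k < n ∨ n' ≤ C.top e0 k) (h : SZ T C s A zt n) :
    SZ T C s A zt n' := by
  obtain ⟨d, rfl⟩ := Int.le.dest hnn
  clear hnn
  induction d with
  | zero => simpa using h
  | succ d ih =>
    have h1 := (ih (fun k => (ha k).imp id fun h => by push_cast at h; omega)
      (fun k => (hc k).imp id fun h => by push_cast at h; omega)).plain hD hM (by omega)
      (by omega)
      (fun k hk => by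
        rcases ha k with h2 | h2
        · omega
        · push_cast at h2
          omega)
      (fun k hk => by
        rcases hc k with h2 | h2
        · omega
        · push_cast at h2
          omega)
    push_cast
    rwa [← add_assoc]

/-- the next collision -/
theorem exists_top (C : Sch D r) {e0 : E} (z : ℤ) (hdis : ∀ k, C.top e0 k ≠ z) :
    ∃ k0, z < C.top e0 k0 ∧ C.top e0 k0 < z + C.q := by
  have hq := C.q_pos
  have h1 := Int.mul_ediv_add_emod (z + C.m e0) C.q
  have h2 := Int.emod_nonneg (z + C.m e0) hq.ne'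
  have h3 := Int.emod_lt_of_pos (z + C.m e0) hq
  refine ⟨(z + C.m e0) / C.q - 1, ?_, ?_⟩
  · unfold Sch.top
    nlinarith
  · have h4 : C.top e0 ((z + C.m e0) / C.q - 1) ≤ z + C.q := by
      unfold Sch.top
      nlinarith
    refine lt_of_le_of_ne h4 fun h5 => hdis ((z + C.m e0) / C.q - 2) ?_
    have h6 := top_add (C := C) e0 ((z + C.m e0) / C.q - 2) 1
    rw [show (z + C.m e0) / C.q - 2 + 1 = (z + C.m e0) / (C.q : ℤ) - 1 by ring, h5] at h6
    linarith

/-- one round -/
theorem SG.round [Fintype I] [Fintype E] [DecidableEq I] [DecidableEq E] (hD : AllOne T D)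
    {s : I} {e0 : E} (hM : Mis C s e0)
    (σ : E ≃ {x : I // x ≠ r}) (hT : Forest D.ci D.ct)
    (hdet : ¬ (Polynomial.X : Polynomial ℚ) ^ (C.q + 1) ∣
      (wmat σ ℚ C.q C.S C.m D.ci D.cl D.ct).det)
    {A j0 : ℤ} (hA : A ≤ C.tm s j0) (h : SG T C A (C.tm s j0)) :
    SG T C A (C.tm s (j0 + 1)) := by
  have hq := C.q_pos
  obtain ⟨k0, h1, h2⟩ := exists_top C (e0 := e0) (C.tm s j0) fun k h => hM.dis j0 k h.symm
  have h3 := h.arrive hD hM hA rfl
  have h4 := h3.iter (n' := C.top e0 k0) hD hM (by omega) (by omega) (by omega)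
    (fun j => by
      by_contra hcon
      push Not at hcon
      exact arr_near (C := C) (s := s) (j0 := j0) (j := j) (by omega) (by omega))
    (fun k => by
      by_contra hcon
      push Not at hcon
      have := col_near (C := C) (s := s) (e0 := e0) (j0 := j0) (k0 := k0) (k := k) h1 h2
        (by omega) (by omega)
      rw [this] at hcon
      omega)
  have h5 := SZ.collide hD hM σ hT hdet hA h1 h2 h4
  have h6 := h5.iter (n' := C.tm s j0 + C.q) hD hM (by omega) (by omega)
    (fun j => by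
      by_contra hcon
      push Not at hcon
      exact arr_near (C := C) (s := s) (j0 := j0) (j := j) (by omega) (by omega))
    (fun k => by
      by_contra hcon
      push Not at hcon
      have := col_near (C := C) (s := s) (e0 := e0) (j0 := j0) (k0 := k0) (k := k) h1 h2
        (by omega) (by omega)
      rw [this] at hcon
      omega)
  rwa [tm_add, mul_one]

theorem SG.rounds [Fintype I] [Fintype E] [DecidableEq I] [DecidableEq E] (hD : AllOne T D)
    {s : I} {e0 : E} (hM : Mis C s e0)
    (σ : E ≃ {x : I // x ≠ r}) (hT : Forest D.ci D.ct)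
    (hdet : ¬ (Polynomial.X : Polynomial ℚ) ^ (C.q + 1) ∣
      (wmat σ ℚ C.q C.S C.m D.ci D.cl D.ct).det)
    {A j0 : ℤ} (hA : A = C.tm s j0) (h : SG T C A A) (p : ℕ) :
    SG T C A (C.tm s (j0 + p)) := by
  induction p with
  | zero => rw [Nat.cast_zero, add_zero, ← hA]; exact h
  | succ p ih =>
    have h1 := ih.round hD hM σ hT hdet (by
      rw [tm_add, ← hA]
      have := C.q_pos
      nlinarith)
    push_cast
    rwa [← add_assoc]

open Classical in
/-- a configuration gives groups for the intervals -/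
theorem SG.interval (hD : AllOne T D) {A B m : ℤ}
    (hAB : ∀ e k, 0 ≤ k → k + 2 ≤ m → A ≤ C.top e k ∧ C.top e k < B) (h : SG T C A B)
    {Q : Type} [Group Q] (π : CoprodI G →* Q) (hπ : ∀ e, π (D.rel e) = 1) :
    Interval T D π (π (of (T.t r))) m := by
  obtain ⟨X, _, a, Y0, hX, hcf⟩ := h
  let τ := π (of (T.t r))
  let α' : ∀ i, (T.ht i).ker →* Q := fun i => (π.comp of).comp (T.ht i).ker.subtype
  let Z : I → ℤ → Q := fun i k => π (of (T.t i)) ^ k * (τ ^ k)⁻¹
  have hcc : ∀ i k (g : G i), cc T α' Z i k g = τ ^ k * π (of g) * (τ ^ (k + T.hz i g))⁻¹ := by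
    intro i k g
    unfold cc
    have h1 : α' i (T.ka i k g) = π (of (T.t i)) ^ k * π (of g) *
        (π (of (T.t i)) ^ (k + T.hz i g))⁻¹ := by
      show π (of (T.t i ^ k * g * (T.t i ^ (k + T.hz i g))⁻¹)) = _
      rw [map_mul, map_mul, map_mul, map_mul, map_inv, map_inv, map_zpow, map_zpow, map_zpow,
        map_zpow]
    rw [h1]
    simp only [Z]
    group
  obtain ⟨F, hFa, hFY⟩ := hcf.univ Q α' Z
    (fun k => by simp only [Z, τ]; rw [mul_inv_cancel]) (by
      intro e k _ _
      obtain ⟨e1, e2, e3, e4⟩ := hD e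
      unfold Eq1
      rw [hcc, hcc, hcc, hcc, e1, e2, e3, e4]
      have h1 := hπ e
      have h2 : D.rel e = (of (D.x e) * of (D.y e)) * (of (D.y' e) * of (D.z e))⁻¹ := rfl
      rw [h2, map_mul, map_inv, mul_inv_eq_one, map_mul, map_mul] at h1
      calc τ ^ k * π (of (D.x e)) * (τ ^ (k + 1))⁻¹ *
          (τ ^ (k + 1) * π (of (D.y e)) * (τ ^ (k + 1 + 1))⁻¹) =
          τ ^ k * (π (of (D.x e)) * π (of (D.y e))) * (τ ^ (k + 1 + 1))⁻¹ := by group
        _ = _ := by rw [h1]; group)
  let Y : I → ℤ → CoprodI (IG X I) := fun i k =>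
    if C.kn B i k then ix X I (Y0 i k) else il X I (i, k) (Multiplicative.ofAdd 1)
  refine ⟨CoprodI (IG X I), inferInstance, fun i => (ix X I).comp (a i), Y,
    iLift X I F (fun x => Z x.1 x.2), ?_, ?_, ?_, ?_⟩
  · refine locInd_coprod fun i => ?_
    cases i with
    | none => exact hX
    | some _ => exact locInd_int
  · intro e k h0 hk
    obtain ⟨h1, h2⟩ := hAB e k h0 hk
    exact C.eq_map hD (ix X I) (fun _ _ => rfl) e k B h2
      (fun v j hv => (if_pos hv : Y v j = _).symm) (hcf.eqs e k h1 h2)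
  · intro i g
    show iLift X I F _ (ix X I (a i g)) = _
    rw [iLift_ix, hFa]
    rfl
  · intro i k
    by_cases h : C.kn B i k
    · have h1 : Y i k = ix X I (Y0 i k) := if_pos h
      rw [h1, iLift_ix, hFY i k h]
    · have h1 : Y i k = il X I (i, k) (Multiplicative.ofAdd 1) := if_neg h
      rw [h1, iLift_il]

theorem locInd_of_sg (hD : AllOne T D) (C : Sch D r)
    (hsta : ∀ m : ℕ, ∃ A B : ℤ, (∀ e (k : ℤ), 0 ≤ k → k + 2 ≤ m →
      A ≤ C.top e k ∧ C.top e k < B) ∧ SG T C A B) {Q : Type} [Group Q]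
    (π : CoprodI G →* Q) (hsurj : Function.Surjective π)
    (hker : π.ker = Subgroup.normalClosure (Set.range D.rel)) : LocInd Q := by
  have hπ : ∀ e, π (D.rel e) = 1 := by
    intro e
    rw [← MonoidHom.mem_ker, hker]
    exact Subgroup.subset_normalClosure ⟨e, rfl⟩
  refine locInd_of_levels D hD r π hsurj hker fun m => ?_
  obtain ⟨A, B, hAB, h⟩ := hsta m
  exact h.interval hD hAB π hπ

/-- **A schedule which misses one letter.** -/
theorem locInd_mis [Fintype I] [Fintype E] [DecidableEq I] [DecidableEq E] (hD : AllOne T D)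
    (hLI : ∀ i, LocInd (G i)) (C : Sch D r) {s : I} {e0 : E} (hM : Mis C s e0)
    (σ : E ≃ {x : I // x ≠ r}) (hT : Forest D.ci D.ct)
    (hdet : ¬ (Polynomial.X : Polynomial ℚ) ^ (C.q + 1) ∣
      (wmat σ ℚ C.q C.S C.m D.ci D.cl D.ct).det) {Q : Type} [Group Q]
    (π : CoprodI G →* Q) (hsurj : Function.Surjective π)
    (hker : π.ker = Subgroup.normalClosure (Set.range D.rel)) : LocInd Q := by
  refine locInd_of_sg hD C (fun m => ?_) π hsurj hker
  have hq := C.q_pos
  let M : ℕ := ∑ e, C.m e
  refine ⟨C.tm s (-(M : ℤ)), C.tm s (-(M : ℤ) + ((M + m + 1 + C.S s : ℕ) : ℤ)), ?_, ?_⟩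
  · intro e k h0 hk
    have h1 : C.m e ≤ M := Finset.single_le_sum (fun _ _ => Nat.zero_le _) (Finset.mem_univ e)
    have h2 : (C.m e : ℤ) ≤ M := by exact_mod_cast h1
    have h3 : (0 : ℤ) ≤ C.m e := Int.natCast_nonneg _
    have h4 : (0 : ℤ) ≤ C.S s := Int.natCast_nonneg _
    unfold Sch.tm Sch.top
    push_cast
    constructor
    · nlinarith
    · nlinarith
  · exact (SG.base hLI C _).rounds hD hM σ hT hdet rfl _

/-- **A schedule which is onto.** -/
theorem locInd_onto [Fintype E] (hD : AllOne T D)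
    (hLI : ∀ i, LocInd (G i)) (C : Sch D r) (hinj : ∀ e e', C.ph e = C.ph e' → e = e')
    (hcov : ∀ v, v ≠ r → ∃ e, C.ph e = v) {Q : Type} [Group Q]
    (π : CoprodI G →* Q) (hsurj : Function.Surjective π)
    (hker : π.ker = Subgroup.normalClosure (Set.range D.rel)) : LocInd Q := by
  refine locInd_of_sg hD C (fun m => ?_) π hsurj hker
  have hq := C.q_pos
  let M : ℕ := ∑ e, C.m e
  have hall : ∀ (A : ℤ) (p : ℕ), SG T C A (A + p) := by
    intro A p
    induction p with
    | zero => simpa using SG.base hLI C A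
    | succ p ih =>
      obtain ⟨X, _, a, Y, hX, hcf⟩ := ih
      push_cast
      rw [← add_assoc]
      exact ⟨X, _, a, C.stp (fun _ => True) _ 1 a Y, hX,
        hcf.plain hD (by omega) (fun e e' _ _ h => hinj e e' h) 1
        (fun v j hv _ => (hcov v hv).imp fun e he => ⟨trivial, he⟩) fun _ _ _ => trivial⟩
  refine ⟨-(M : ℤ), -(M : ℤ) + ((M + C.q * m + 1 : ℕ) : ℤ), ?_, hall _ _⟩
  intro e k h0 hk
  have h1 : C.m e ≤ M := Finset.single_le_sum (fun _ _ => Nat.zero_le _) (Finset.mem_univ e)
  have h2 : (C.m e : ℤ) ≤ M := by exact_mod_cast h1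
  have h3 : (0 : ℤ) ≤ C.m e := Int.natCast_nonneg _
  unfold Sch.top
  push_cast
  constructor
  · nlinarith
  · nlinarith

end Pool.Agent.V5helper80.Wt
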