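import Pool.Agent.V5helper80.Wt.Log

/-!
# Weights of the vertices with a unique lightest vertex in every relation
-/

set_option autoImplicit false

namespace Pool.Agent.V5helper80.Wt

open Monoid (CoprodI)
open Monoid.CoprodI (of)
open Pool.Agent.V5helper80.Rel Pool.Agent.V5helper80.One
open Pool.Agent.TH625.LOG

/-- for the weights `S (l e)`, `S (t e)` and `q + S (i e)` of the vertices `l e`, `t e` and `i e`, those
of `r` excepted: the least weight is `m`, and it is attained only once, by the vertex `v` -/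
def Least {I E : Type} (i l t : E → I) (r : I) (q : ℕ) (S : I → ℕ) (e : E) (v : I) (m : ℕ) :
    Prop :=
  v ≠ r ∧
    ((v = l e ∧ m = S (l e) ∧ (t e = r ∨ m < S (t e)) ∧ (i e = r ∨ m < q + S (i e))) ∨
    (v = t e ∧ m = S (t e) ∧ (l e = r ∨ m < S (l e)) ∧ (i e = r ∨ m < q + S (i e))) ∨
    (v = i e ∧ m = q + S (i e) ∧ (l e = r ∨ m < S (l e)) ∧ (t e = r ∨ m < S (t e))))

open Classical in
/-- there are weights such that the lightest vertices are unique and all vertices different from
`r`, with at most one exception, are lightest vertices; if there is an exception then the sum of the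
least weights is at least `q * (d - 1)` plus the sum of the weights of the vertices different from `r` -/
def Good {I E : Type} [Fintype I] [Fintype E] (i l t : E → I) (r : I) (d : ℕ) : Prop :=
  ∃ (q : ℕ) (S : I → ℕ) (φ : E → I) (m : E → ℕ), 0 < q ∧
    (∀ e, Least i l t r q S e (φ e) (m e)) ∧
    ((∀ v, v ≠ r → ∃ e, φ e = v) ∨
      ((∃ s, ∀ v, v ≠ r → v ≠ s → ∃ e, φ e = v) ∧
        q * d + ∑ v ∈ Finset.univ.erase r, S v ≤ ∑ e, m e + q))

section
variable {I E : Type} {G : I → Type} [∀ i, Group (G i)] {T : Hg G} {D : Dat I E G} {r : I}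

theorem exists_sch {q : ℕ} (hq : 0 < q) {S : I → ℕ} {φ : E → I} {m : E → ℕ}
    (h : ∀ e, Least D.ci D.cl D.ct r q S e (φ e) (m e)) :
    ∃ C : Sch D r, C.q = q ∧ C.S = S ∧ C.ph = φ ∧ C.m = m := by
  have h1 : ∀ e, ∃ ty : Ty,
      (ty = .l → φ e = D.cl e ∧ m e = S (D.cl e) ∧ (D.ct e = r ∨ m e < S (D.ct e)) ∧
        (D.ci e = r ∨ m e < q + S (D.ci e))) ∧
      (ty = .t → φ e = D.ct e ∧ m e = S (D.ct e) ∧ (D.cl e = r ∨ m e < S (D.cl e)) ∧
        (D.ci e = r ∨ m e < q + S (D.ci e))) ∧
      (ty = .i → φ e = D.ci e ∧ m e = q + S (D.ci e) ∧ (D.cl e = r ∨ m e < S (D.cl e)) ∧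
        (D.ct e = r ∨ m e < S (D.ct e))) := by
    intro e
    obtain ⟨_, h2 | h2 | h2⟩ := h e
    · exact ⟨.l, fun _ => h2, fun h => (by cases h), fun h => (by cases h)⟩
    · exact ⟨.t, fun h => (by cases h), fun _ => h2, fun h => (by cases h)⟩
    · exact ⟨.i, fun h => (by cases h), fun h => (by cases h), fun _ => h2⟩
  choose ty h2 h3 h4 using h1
  let C : Sch D r :=
    { q := q
      hq := hq
      S := S
      ty := ty
      hl := fun e he => by
        obtain ⟨a1, a2, a3, a4⟩ := h2 e he
        have h0 := (h e).1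
        rw [a1] at h0
        rw [a2] at a3 a4
        exact ⟨h0, a3, a4⟩
      ht := fun e he => by
        obtain ⟨a1, a2, a3, a4⟩ := h3 e he
        have h0 := (h e).1
        rw [a1] at h0
        rw [a2] at a3 a4
        exact ⟨h0, a3, a4⟩
      hi := fun e he => by
        obtain ⟨a1, a2, a3, a4⟩ := h4 e he
        have h0 := (h e).1
        rw [a1] at h0
        rw [a2] at a3 a4
        exact ⟨h0, a3, a4⟩ }
  refine ⟨C, rfl, rfl, ?_, ?_⟩
  · funext e
    have hty : C.ty e = ty e := rfl
    unfold Sch.ph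
    rw [hty]
    cases hh : ty e with
    | l => exact (h2 e hh).1.symm
    | t => exact (h3 e hh).1.symm
    | i => exact (h4 e hh).1.symm
  · funext e
    have hty : C.ty e = ty e := rfl
    unfold Sch.m
    rw [hty]
    cases hh : ty e with
    | l => exact (h2 e hh).2.1.symm
    | t => exact (h3 e hh).2.1.symm
    | i => exact (h4 e hh).2.1.symm

variable [Fintype I] [Fintype E] [DecidableEq I] [DecidableEq E]

/-- **The theorem on weights.** -/
theorem locInd_good (hD : AllOne T D) (hLI : ∀ i, LocInd (G i))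
    (hcard : Fintype.card I = Fintype.card E + 1) (σ : E ≃ {x : I // x ≠ r})
    (hT : Forest D.ci D.ct)
    (h : Good D.ci D.cl D.ct r (alex σ ℚ D.ci D.cl D.ct).natTrailingDegree) {Q : Type} [Group Q]
    (π : CoprodI G →* Q) (hsurj : Function.Surjective π)
    (hker : π.ker = Subgroup.normalClosure (Set.range D.rel)) : LocInd Q := by
  obtain ⟨q, S, φ, m, hq, h1, h2⟩ := h
  obtain ⟨C, rfl, rfl, rfl, rfl⟩ := exists_sch hq h1
  by_cases hall : ∀ v, v ≠ r → ∃ e, C.ph e = v
  · -- bijective
    let f : E → {v : I // v ≠ r} := fun e => ⟨C.ph e, C.ph_ne e⟩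
    have hf : Function.Surjective f := by
      rintro ⟨v, hv⟩
      obtain ⟨e, he⟩ := hall v hv
      exact ⟨e, Subtype.ext he⟩
    have hf' := (Fintype.bijective_iff_surjective_and_card f).2
      ⟨hf, Fintype.card_congr σ⟩
    exact locInd_onto hD hLI C (fun e e' hee => hf'.1 (Subtype.ext hee)) hall π hsurj hker
  · rcases h2 with h2 | ⟨⟨s, hs⟩, h3⟩
    · exact absurd h2 hall
    · have hns : ∀ e, C.ph e ≠ s := by
        intro e he
        apply hall
        intro v hv
        by_cases hvs : v = s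
        · exact ⟨e, by rw [he, hvs]⟩
        · exact hs v hv hvs
      have hsr : s ≠ r := by
        intro hsr
        exact hall fun v hv => hs v hv (by rw [hsr]; exact hv)
      refine locInd_miss hD hLI C hcard σ hT hsr hns hs ?_ π hsurj hker
      refine (Nat.add_le_add_left (le_of_eq (Finset.sum_congr ?_ fun _ _ => rfl)) _).trans h3
      ext x
      exact Finset.mem_erase.trans (@Finset.mem_erase _ (fun a b => Classical.propDecidable _)
        _ _ _).symm

/-- **The theorem on weights, for the highest coefficient.** -/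
theorem locInd_good_rev (hD : AllOne T D) (hLI : ∀ i, LocInd (G i))
    (hcard : Fintype.card I = Fintype.card E + 1) (σ : E ≃ {x : I // x ≠ r})
    (hT : Forest D.ci D.ct)
    (h : Good D.ct D.cl D.ci r (Fintype.card E - (alex σ ℚ D.ci D.cl D.ct).natDegree))
    {Q : Type} [Group Q]
    (π : CoprodI G →* Q) (hsurj : Function.Surjective π)
    (hker : π.ker = Subgroup.normalClosure (Set.range D.rel)) : LocInd Q := by
  refine locInd_good (D := rv D) (T := T.rev) (allOne_rv hD) hLI hcard σ (Forest.symm hT) ?_ π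
    hsurj (hker.trans (nc_rv D).symm)
  obtain ⟨q, S, φ, m, hq, h1, h2⟩ := h
  refine ⟨q, S, φ, m, hq, h1, h2.imp id fun h3 => ⟨h3.1, le_trans ?_ h3.2⟩⟩
  have h0 : alex σ ℚ D.ci D.cl D.ct ≠ 0 := alex_ne_zero hT
  have hdeg := natDegree_alex (K := ℚ) σ D.ci D.cl D.ct
  have h5 : (alex σ ℚ D.ci D.cl D.ct).coeff (alex σ ℚ D.ci D.cl D.ct).natDegree ≠ 0 :=
    mt Polynomial.leadingCoeff_eq_zero.1 h0
  have h6 := alex_rev_coeff σ D.ci D.cl D.ct
    (Fintype.card E - (alex σ ℚ D.ci D.cl D.ct).natDegree) (Nat.sub_le _ _)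
    (by rwa [Nat.sub_sub_self hdeg])
  have h7 : (alex σ ℚ (rv D).ci (rv D).cl (rv D).ct).natTrailingDegree ≤
      Fintype.card E - (alex σ ℚ D.ci D.cl D.ct).natDegree :=
    Polynomial.natTrailingDegree_le_of_ne_zero h6
  exact Nat.add_le_add_right (Nat.mul_le_mul_left _ h7) _

end

section tree
open Classical
variable {V E I : Type} [Fintype V] [Fintype E] [Fintype I]

/-- **The theorem for labelled oriented trees with classes.** -/
theorem locInd_wlog (L : LOG V E) (hL : L.Conn) (hcard : Fintype.card V = Fintype.card E + 1)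
    (cl : V → I) (hc : Function.Surjective cl) (hT : TreeP L cl)
    (hLI : ∀ v, LocInd (part L fun u => cl u = cl v).G) (r : I)
    (σ : Out L cl ≃ {x : I // x ≠ r})
    (h : Good (fun e : Out L cl => cl (L.ini e.1)) (fun e => cl (L.lab e.1))
        (fun e => cl (L.ter e.1)) r (alexC L cl σ).natTrailingDegree ∨
      Good (fun e : Out L cl => cl (L.ter e.1)) (fun e => cl (L.lab e.1))
        (fun e => cl (L.ini e.1)) r
        (Fintype.card (Out L cl) - (alexC L cl σ).natDegree)) : LocInd L.G := by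
  have hLI' : ∀ i, LocInd (CG L cl i) := fun i => by
    obtain ⟨v, rfl⟩ := hc i
    exact hLI v
  apply locInd_of_quot L cl
  rcases h with h | h
  · exact locInd_good (D := dat L cl) (T := hgC L cl hc) (allOne_dat L cl hc) hLI'
      (card_quot L hcard cl hc hT) σ (forest_quot L hL hcard cl hc hT) h
      (QuotientGroup.mk' _) (QuotientGroup.mk'_surjective _) (QuotientGroup.ker_mk' _)
  · exact locInd_good_rev (D := dat L cl) (T := hgC L cl hc) (allOne_dat L cl hc) hLI'
      (card_quot L hcard cl hc hT) σ (forest_quot L hL hcard cl hc hT) h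
      (QuotientGroup.mk' _) (QuotientGroup.mk'_surjective _) (QuotientGroup.ker_mk' _)

/-- reindexing the relations -/
theorem good_reindex {E' : Type} [Fintype E'] (τ : E' ≃ E) {i l t : E → V} {r : V} {d : ℕ}
    (h : Good i l t r d) :
    Good (fun e => i (τ e)) (fun e => l (τ e)) (fun e => t (τ e)) r d := by
  obtain ⟨q, S, φ, m, hq, h1, h2⟩ := h
  have hex : ∀ v, (∃ e, φ e = v) → ∃ e, φ (τ e) = v := by
    rintro v ⟨e, he⟩
    exact ⟨τ.symm e, by rw [τ.apply_symm_apply, he]⟩
  refine ⟨q, S, fun e => φ (τ e), fun e => m (τ e), hq, fun e => h1 (τ e), ?_⟩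
  rcases h2 with h2 | ⟨⟨s, h2⟩, h3⟩
  · exact Or.inl fun v hv => hex v (h2 v hv)
  · refine Or.inr ⟨⟨s, fun v hv hs => hex v (h2 v hv hs)⟩, ?_⟩
    rwa [Equiv.sum_comp τ m]

/-- **The theorem for labelled oriented trees.** -/
theorem locInd_wlot (L : LOG V E) (hL : L.Conn) (hcard : Fintype.card V = Fintype.card E + 1)
    (r : V) (σ : E ≃ {x : V // x ≠ r})
    (h : Good L.ini L.lab L.ter r (alex σ ℚ L.ini L.lab L.ter).natTrailingDegree ∨
      Good L.ter L.lab L.ini r (Fintype.card E - (alex σ ℚ L.ini L.lab L.ter).natDegree)) :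
    LocInd L.G := by
  let τ : Out L (id : V → V) ≃ E := Equiv.subtypeUnivEquiv (by
    intro e h
    exact no_loop L hL hcard e (h.1.trans h.2.symm))
  refine locInd_wlog L hL hcard id Function.surjective_id (treeP_id L hL hcard)
    (fun v => locInd_single L v) r (τ.trans σ) ?_
  have h1 : alexC L (id : V → V) (τ.trans σ) = alex σ ℚ L.ini L.lab L.ter :=
    alex_reindex τ σ L.ini L.lab L.ter
  rw [h1, Fintype.card_congr τ]
  exact h.imp (fun h => good_reindex τ h) fun h => good_reindex τ h

end tree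

end Pool.Agent.V5helper80.Wt
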