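import Pool.Agent.V5helper80.Wt.Defs

/-!
# The weighted Alexander matrix
-/

set_option autoImplicit false

namespace Pool.Agent.V5helper80.Wt

open Monoid (CoprodI)
open Monoid.CoprodI (of)
open Pool.Agent.V5helper80.Rel Pool.Agent.V5helper80.One
open Pool.Agent.TH625.LOG
open Polynomial Matrix

section mat
variable {I E : Type} [Fintype E] [DecidableEq E] [DecidableEq I] {r : I}
  (σ : E ≃ {i : I // i ≠ r}) (K : Type) [Field K] (q : ℕ) (S : I → ℕ) (m : E → ℕ)
  (i l t : E → I)

/-- the weighted Alexander matrix -/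
noncomputable def wmat : Matrix E E K[X] :=
  Matrix.of fun e a =>
    (if l e = (σ a).1 then X ^ (S (l e) - m e) * (1 - X ^ q) else 0) -
      (if t e = (σ a).1 then X ^ (S (t e) - m e) else 0) +
        (if i e = (σ a).1 then X ^ (q + S (i e) - m e) else 0)

theorem wmat_apply (e a : E) : wmat σ K q S m i l t e a =
    (if l e = (σ a).1 then X ^ (S (l e) - m e) * (1 - X ^ q) else 0) -
      (if t e = (σ a).1 then X ^ (S (t e) - m e) else 0) +
        (if i e = (σ a).1 then X ^ (q + S (i e) - m e) else 0) := rfl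

theorem wmat_det (hm : ∀ e, (l e = r ∨ m e ≤ S (l e)) ∧ (t e = r ∨ m e ≤ S (t e)) ∧
    (i e = r ∨ m e ≤ q + S (i e))) :
    (∏ e, (X : K[X]) ^ m e) * (wmat σ K q S m i l t).det =
      expand K q (alex σ K i l t) * ∏ a, (X : K[X]) ^ S (σ a).1 := by
  have h1 : Matrix.diagonal (fun e => (X : K[X]) ^ m e) * wmat σ K q S m i l t =
      (expand K q).toRingHom.mapMatrix (amat σ K i l t) *
        Matrix.diagonal (fun a => (X : K[X]) ^ S (σ a).1) := by
    ext1 e a
    rw [Matrix.diagonal_mul, Matrix.mul_diagonal]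
    obtain ⟨h1, h2, h3⟩ := hm e
    have hr : (σ a).1 ≠ r := (σ a).2
    have hent : (expand K q).toRingHom.mapMatrix (amat σ K i l t) e a =
        X ^ q * ((if i e = (σ a).1 then 1 else 0) - (if l e = (σ a).1 then 1 else 0)) +
          ((if l e = (σ a).1 then 1 else 0) - (if t e = (σ a).1 then 1 else 0)) := by
      show expand K q (X * C (inc σ K i l e a) + C (inc σ K l t e a)) = _
      rw [map_add, map_mul, expand_X, expand_C, expand_C]
      have e1 : ∀ p p' : E → I, (C (inc σ K p p' e a) : K[X]) =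
          (if p e = (σ a).1 then 1 else 0) - (if p' e = (σ a).1 then 1 else 0) := by
        intro p p'
        show (C ((if p e = (σ a).1 then (1 : K) else 0) - (if p' e = (σ a).1 then 1 else 0)) :
          K[X]) = _
        rw [C_sub]
        split_ifs <;> simp
      rw [e1, e1]
    rw [hent, wmat_apply]
    have hL : l e = (σ a).1 → (X : K[X]) ^ m e * X ^ (S (l e) - m e) = X ^ S (σ a).1 := by
      intro h
      rw [← pow_add, h]
      congr 1
      have := h1.resolve_left (by rw [h]; exact hr)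
      rw [h] at this
      omega
    have hT : t e = (σ a).1 → (X : K[X]) ^ m e * X ^ (S (t e) - m e) = X ^ S (σ a).1 := by
      intro h
      rw [← pow_add, h]
      congr 1
      have := h2.resolve_left (by rw [h]; exact hr)
      rw [h] at this
      omega
    have hI : i e = (σ a).1 → (X : K[X]) ^ m e * X ^ (q + S (i e) - m e) =
        X ^ q * X ^ S (σ a).1 := by
      intro h
      rw [← pow_add, ← pow_add, h]
      congr 1
      have := h3.resolve_left (by rw [h]; exact hr)
      rw [h] at this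
      omega
    have e1 : (X : K[X]) ^ m e * (if l e = (σ a).1 then X ^ (S (l e) - m e) * (1 - X ^ q) else 0) =
        (if l e = (σ a).1 then 1 else 0) * (1 - X ^ q) * X ^ S (σ a).1 := by
      by_cases h : l e = (σ a).1
      · rw [if_pos h, if_pos h, ← mul_assoc, hL h]
        ring
      · rw [if_neg h, if_neg h]
        ring
    have e2 : (X : K[X]) ^ m e * (if t e = (σ a).1 then X ^ (S (t e) - m e) else 0) =
        (if t e = (σ a).1 then 1 else 0) * X ^ S (σ a).1 := by
      by_cases h : t e = (σ a).1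
      · rw [if_pos h, if_pos h, hT h]
        ring
      · rw [if_neg h, if_neg h]
        ring
    have e3 : (X : K[X]) ^ m e * (if i e = (σ a).1 then X ^ (q + S (i e) - m e) else 0) =
        (if i e = (σ a).1 then 1 else 0) * X ^ q * X ^ S (σ a).1 := by
      by_cases h : i e = (σ a).1
      · rw [if_pos h, if_pos h, hI h]
        ring
      · rw [if_neg h, if_neg h]
        ring
    rw [mul_add, mul_sub, e1, e2, e3]
    ring
  have h2 := congrArg Matrix.det h1
  rw [Matrix.det_mul, Matrix.det_mul, Matrix.det_diagonal, Matrix.det_diagonal,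
    ← RingHom.map_det] at h2
  exact h2

/-- the order of the weighted determinant -/
theorem not_dvd (hm : ∀ e, (l e = r ∨ m e ≤ S (l e)) ∧ (t e = r ∨ m e ≤ S (t e)) ∧
    (i e = r ∨ m e ≤ q + S (i e))) (hq : 0 < q) (h0 : alex σ K i l t ≠ 0) (d : ℕ)
    (hd : X ^ d ∣ (wmat σ K q S m i l t).det) :
    ∑ e, m e + d ≤ q * (alex σ K i l t).natTrailingDegree + ∑ a, S (σ a).1 := by
  obtain ⟨p, hp⟩ := hd
  have h1 := wmat_det σ K q S m i l t hm
  rw [hp, Finset.prod_pow_eq_pow_sum, Finset.prod_pow_eq_pow_sum, ← mul_assoc, ← pow_add] at h1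
  by_contra hlt
  push Not at hlt
  have h2 := congrArg (fun f => coeff f (q * (alex σ K i l t).natTrailingDegree +
    ∑ a, S (σ a).1)) h1
  simp only at h2
  rw [coeff_mul_X_pow, coeff_X_pow_mul', if_neg (not_le.2 hlt), mul_comm q,
    coeff_expand_mul hq] at h2
  exact h0 (trailingCoeff_eq_zero.1 h2.symm)

theorem wdet_ne (hm : ∀ e, (l e = r ∨ m e ≤ S (l e)) ∧ (t e = r ∨ m e ≤ S (t e)) ∧
    (i e = r ∨ m e ≤ q + S (i e))) (hq : 0 < q) (h0 : alex σ K i l t ≠ 0) :
    (wmat σ K q S m i l t).det ≠ 0 := by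
  intro h
  have h1 := not_dvd σ K q S m i l t hm hq h0
    (q * (alex σ K i l t).natTrailingDegree + ∑ a, S (σ a).1 + 1) (by rw [h]; exact dvd_zero _)
  omega

end mat

section sol
variable {I E : Type} {G : I → Type} [∀ i, Group (G i)] {T : Hg G} {D : Dat I E G} {r : I}
  (C : Sch D r)

theorem Sch.hm (e : E) : (D.cl e = r ∨ C.m e ≤ C.S (D.cl e)) ∧
    (D.ct e = r ∨ C.m e ≤ C.S (D.ct e)) ∧ (D.ci e = r ∨ C.m e ≤ C.q + C.S (D.ci e)) := by
  unfold Sch.m
  cases h : C.ty e with
  | l =>
    obtain ⟨_, h2, h3⟩ := C.hl e h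
    exact ⟨Or.inr le_rfl, h2.imp id le_of_lt, h3.imp id le_of_lt⟩
  | t =>
    obtain ⟨_, h2, h3⟩ := C.ht e h
    exact ⟨h2.imp id le_of_lt, Or.inr le_rfl, h3.imp id le_of_lt⟩
  | i =>
    obtain ⟨_, h2, h3⟩ := C.hi e h
    exact ⟨h2.imp id le_of_lt, h3.imp id le_of_lt, Or.inr le_rfl⟩

variable {K : Type} [Field K]

/-- the letters as differences of potentials -/
def dh (Z : I → ℤ → Multiplicative K) (v : I) (j : ℤ) : K :=
  (Z v (j + 1)).toAdd - (Z v j).toAdd

theorem cc_one (Z : I → ℤ → Multiplicative K) (v : I) (j : ℤ) (g : G v) (hg : T.hz v g = 1) :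
    cc T (fun _ => 1) Z v j g = Multiplicative.ofAdd (dh Z v j) := by
  unfold cc dh
  rw [hg, MonoidHom.one_apply, mul_one, ofAdd_sub]
  simp only [ofAdd_toAdd]
  rw [mul_comm, div_eq_mul_inv]

theorem eq1_one (hD : AllOne T D) (Z : I → ℤ → Multiplicative K) (e : E) (k : ℤ) :
    Eq1 D (fun i => (1 : (T.ht i).ker →* Multiplicative K)) Z e k ↔
      dh Z (D.ci e) k + dh Z (D.cl e) (k + 1) = dh Z (D.cl e) k + dh Z (D.ct e) (k + 1) := by
  obtain ⟨e1, e2, e3, e4⟩ := hD e
  unfold Eq1
  rw [cc_one Z _ _ _ e1, cc_one Z _ _ _ e2, cc_one Z _ _ _ e3, cc_one Z _ _ _ e4, ← ofAdd_add,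
    ← ofAdd_add, Multiplicative.ofAdd.injective.eq_iff]

open Classical in
/-- the letters as a function of the time plus the weight -/
noncomputable def g1 (q : ℕ) (Z : I → ℤ → Multiplicative K) (v : I) (n : ℤ) : K :=
  if (q : ℤ) ∣ n then dh Z v (n / q - 1) else 0

variable [Fintype E] [DecidableEq E] [DecidableEq I] (σ : E ≃ {x : I // x ≠ r})

/-- **Divisibility from a truncated solution.** -/
theorem dvd_of_sol (hD : AllOne T D) (Z : I → ℤ → Multiplicative K) (N zt : ℤ)
    (hZr : ∀ j, Z r j = 1) (hZ0 : ∀ v j, C.tm v j < zt → Z v j = 1)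
    (hE : ∀ e k, C.top e k < N → Eq1 D (fun i => (1 : (T.ht i).ker →* Multiplicative K)) Z e k)
    (s : I) (hsr : s ≠ r) (j0 : ℤ) (hs : C.tm s j0 = zt) (hZs : Z s j0 ≠ 1) :
    X ^ (N - zt).toNat ∣ (wmat σ K C.q C.S C.m D.ci D.cl D.ct).det := by
  have hq := C.q_pos
  have hq0 : (C.q : ℤ) ≠ 0 := hq.ne'
  have hdr : ∀ j, dh Z r j = 0 := fun j => by
    unfold dh
    rw [hZr, hZr, sub_self]
  have hgr : ∀ n, g1 C.q Z r n = 0 := fun n => by
    unfold g1
    rw [hdr, ite_self]
  have hgneg : ∀ v n, n < zt → g1 C.q Z v (n + C.S v) = 0 := by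
    intro v n hn
    unfold g1
    split_ifs with h
    · obtain ⟨j, hj⟩ := h
      rw [hj, Int.mul_ediv_cancel_left _ hq0]
      unfold dh
      rw [hZ0 v (j - 1 + 1) (by unfold Sch.tm; rw [sub_add_cancel]; linarith),
        hZ0 v (j - 1) (by unfold Sch.tm; nlinarith), sub_self]
    · rfl
  let F : I → PowerSeries K := fun v => PowerSeries.mk fun n => g1 C.q Z v (zt + n + C.S v)
  have hFr : F r = 0 := by
    ext n
    show PowerSeries.coeff n (PowerSeries.mk _) = _
    rw [PowerSeries.coeff_mk, hgr, map_zero]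
  let ρ : Polynomial K →+* PowerSeries K := Polynomial.coeToPowerSeries.ringHom
  have hρX : ρ X = PowerSeries.X := by
    simp only [ρ, Polynomial.coeToPowerSeries.ringHom_apply, Polynomial.coe_X]
  have hsum : ∀ (p : E → I) (e : E) (c : PowerSeries K),
      ∑ a, (if p e = (σ a).1 then c else 0) * F (σ a).1 = c * F (p e) := by
    intro p e c
    by_cases h : p e = r
    · rw [h, hFr, mul_zero]
      refine Finset.sum_eq_zero fun a _ => ?_
      rw [if_neg (fun h' => (σ a).2 h'.symm), zero_mul]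
    · rw [Finset.sum_eq_single (σ.symm ⟨p e, h⟩)]
      · rw [Equiv.apply_symm_apply, if_pos rfl]
      · intro a _ ha
        rw [if_neg, zero_mul]
        intro h'
        apply ha
        rw [Equiv.eq_symm_apply]
        exact Subtype.ext h'.symm
      · intro h'
        exact absurd (Finset.mem_univ _) h'
  have hrow : ∀ e, (ρ.mapMatrix (wmat σ K C.q C.S C.m D.ci D.cl D.ct) *ᵥ fun a => F (σ a).1) e =
      PowerSeries.X ^ (C.S (D.cl e) - C.m e) * F (D.cl e) -
      PowerSeries.X ^ (C.S (D.cl e) - C.m e + C.q) * F (D.cl e) -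
      PowerSeries.X ^ (C.S (D.ct e) - C.m e) * F (D.ct e) +
      PowerSeries.X ^ (C.q + C.S (D.ci e) - C.m e) * F (D.ci e) := by
    intro e
    have h1 : ∀ a, ρ (wmat σ K C.q C.S C.m D.ci D.cl D.ct e a) =
        (if D.cl e = (σ a).1 then PowerSeries.X ^ (C.S (D.cl e) - C.m e) *
          (1 - PowerSeries.X ^ C.q) else 0) -
        (if D.ct e = (σ a).1 then PowerSeries.X ^ (C.S (D.ct e) - C.m e) else 0) +
        (if D.ci e = (σ a).1 then PowerSeries.X ^ (C.q + C.S (D.ci e) - C.m e) else 0) := by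
      intro a
      rw [wmat_apply, map_add, map_sub]
      congr 1
      · congr 1
        · split_ifs
          · rw [map_mul, map_sub, map_pow, map_pow, map_one, hρX]
          · exact map_zero ρ
        · split_ifs
          · rw [map_pow, hρX]
          · exact map_zero ρ
      · split_ifs
        · rw [map_pow, hρX]
        · exact map_zero ρ
    show ∑ a, ρ (wmat σ K C.q C.S C.m D.ci D.cl D.ct e a) * F (σ a).1 = _
    simp only [h1, add_mul, sub_mul]
    rw [Finset.sum_add_distrib, Finset.sum_sub_distrib, hsum, hsum, hsum]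
    ring
  have hcoef : ∀ (v : I) (c n : ℕ), v ≠ r →
      PowerSeries.coeff n (PowerSeries.X ^ c * F v) = g1 C.q Z v (zt + n - c + C.S v) := by
    intro v c n _
    rw [PowerSeries.coeff_X_pow_mul']
    split_ifs with h
    · show PowerSeries.coeff (n - c) (PowerSeries.mk _) = _
      rw [PowerSeries.coeff_mk]
      congr 1
      push_cast [h]
      ring
    · exact (hgneg v _ (by omega)).symm
  have hvan : ∀ e, PowerSeries.X ^ (N - zt).toNat ∣
      (ρ.mapMatrix (wmat σ K C.q C.S C.m D.ci D.cl D.ct) *ᵥ fun a => F (σ a).1) e := by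
    intro e
    rw [PowerSeries.X_pow_dvd_iff]
    intro n hn
    rw [hrow e, map_add, map_sub, map_sub]
    obtain ⟨m1, m2, m3⟩ := C.hm e
    have hnN : zt + n < N := by omega
    have c1 : PowerSeries.coeff n (PowerSeries.X ^ (C.S (D.cl e) - C.m e) * F (D.cl e)) =
        g1 C.q Z (D.cl e) (zt + n + C.m e) := by
      by_cases h : D.cl e = r
      · rw [h, hFr, mul_zero, map_zero, hgr]
      · rw [hcoef _ _ _ h]
        congr 1
        have := m1.resolve_left h
        push_cast [this]
        ring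
    have c2 : PowerSeries.coeff n (PowerSeries.X ^ (C.S (D.cl e) - C.m e + C.q) * F (D.cl e)) =
        g1 C.q Z (D.cl e) (zt + n + C.m e - C.q) := by
      by_cases h : D.cl e = r
      · rw [h, hFr, mul_zero, map_zero, hgr]
      · rw [hcoef _ _ _ h]
        congr 1
        have := m1.resolve_left h
        push_cast [this]
        ring
    have c3 : PowerSeries.coeff n (PowerSeries.X ^ (C.S (D.ct e) - C.m e) * F (D.ct e)) =
        g1 C.q Z (D.ct e) (zt + n + C.m e) := by
      by_cases h : D.ct e = r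
      · rw [h, hFr, mul_zero, map_zero, hgr]
      · rw [hcoef _ _ _ h]
        congr 1
        have := m2.resolve_left h
        push_cast [this]
        ring
    have c4 : PowerSeries.coeff n (PowerSeries.X ^ (C.q + C.S (D.ci e) - C.m e) * F (D.ci e)) =
        g1 C.q Z (D.ci e) (zt + n + C.m e - C.q) := by
      by_cases h : D.ci e = r
      · rw [h, hFr, mul_zero, map_zero, hgr]
      · rw [hcoef _ _ _ h]
        congr 1
        have := m3.resolve_left h
        push_cast [this]
        ring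
    rw [c1, c2, c3, c4]
    by_cases hdv : (C.q : ℤ) ∣ zt + n + C.m e
    · obtain ⟨j, hj⟩ := hdv
      have h1 := (eq1_one hD Z e (j - 2)).1 (hE e (j - 2) (by unfold Sch.top; nlinarith))
      have e1 : ∀ v, g1 C.q Z v (zt + n + C.m e) = dh Z v (j - 2 + 1) := by
        intro v
        unfold g1
        rw [if_pos ⟨j, hj⟩, hj, Int.mul_ediv_cancel_left _ hq0]
        congr 1
        ring
      have e2 : ∀ v, g1 C.q Z v (zt + n + C.m e - C.q) = dh Z v (j - 2) := by
        intro v
        unfold g1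
        have h2 : zt + n + C.m e - C.q = (C.q : ℤ) * (j - 1) := by rw [hj]; ring
        rw [h2, if_pos (Dvd.intro _ rfl), Int.mul_ediv_cancel_left _ hq0]
        congr 1
        ring
      rw [e1, e1, e2, e2]
      linear_combination h1
    · have e1 : ∀ v, g1 C.q Z v (zt + n + C.m e) = 0 := fun v => if_neg hdv
      have e2 : ∀ v, g1 C.q Z v (zt + n + C.m e - C.q) = 0 := fun v => if_neg (by
        intro h
        apply hdv
        have := dvd_add h (dvd_refl (C.q : ℤ))
        rwa [sub_add_cancel] at this)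
      rw [e1, e1, e2, e2]
      ring
  -- Cramer
  have hFs : ¬ PowerSeries.X ∣ F s := by
    rw [PowerSeries.X_dvd_iff]
    show ¬ PowerSeries.constantCoeff (PowerSeries.mk _) = 0
    rw [← PowerSeries.coeff_zero_eq_constantCoeff_apply, PowerSeries.coeff_mk]
    have h1 : zt + ((0 : ℕ) : ℤ) + C.S s = (C.q : ℤ) * j0 := by
      rw [← hs]
      unfold Sch.tm
      push_cast
      ring
    unfold g1
    rw [h1, if_pos (Dvd.intro _ rfl), Int.mul_ediv_cancel_left _ hq0]
    unfold dh
    rw [sub_add_cancel, hZ0 s (j0 - 1) (by rw [← hs]; unfold Sch.tm; nlinarith), toAdd_one,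
      sub_zero]
    exact fun h => hZs (Multiplicative.toAdd.injective h)
  have hcr : PowerSeries.X ^ (N - zt).toNat ∣
      (ρ.mapMatrix (wmat σ K C.q C.S C.m D.ci D.cl D.ct)).det * F s := by
    have h1 : (ρ.mapMatrix (wmat σ K C.q C.S C.m D.ci D.cl D.ct)).det * F s =
        ((ρ.mapMatrix (wmat σ K C.q C.S C.m D.ci D.cl D.ct)).adjugate *ᵥ
          (ρ.mapMatrix (wmat σ K C.q C.S C.m D.ci D.cl D.ct) *ᵥ fun a => F (σ a).1))
            (σ.symm ⟨s, hsr⟩) := by
      rw [Matrix.mulVec_mulVec, Matrix.adjugate_mul, Matrix.smul_mulVec, Matrix.one_mulVec]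
      show _ = _ * F (σ (σ.symm ⟨s, hsr⟩)).1
      rw [Equiv.apply_symm_apply]
    rw [h1]
    show _ ∣ ∑ b, _
    exact Finset.dvd_sum fun b _ => Dvd.dvd.mul_left (hvan b) _
  have h2 := PowerSeries.X_prime.pow_dvd_of_dvd_mul_right _ hFs hcr
  rw [← RingHom.map_det, PowerSeries.X_pow_dvd_iff] at h2
  rw [Polynomial.X_pow_dvd_iff]
  intro n hn
  have h3 := h2 n hn
  simp only [ρ, Polynomial.coeToPowerSeries.ringHom_apply, Polynomial.coeff_coe] at h3
  exact h3

end sol

end Pool.Agent.V5helper80.Wt
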