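import Pool.Agent.V5helper80.Wt.Fin
import Pool.Agent.V5helper80.One.Fin

/-!
# Weighted labelled oriented trees
-/

set_option autoImplicit false

namespace Pool.Agent.V5helper80.Wt

open Monoid (CoprodI)
open Monoid.CoprodI (of)
open Pool.Agent.V5helper80.Rel Pool.Agent.V5helper80.One
open Pool.Agent.TH625.LOG

section mis
variable {I E : Type} {G : I → Type} [∀ i, Group (G i)] {T : Hg G} {D : Dat I E G} {r : I}

open Classical in
/-- the modified weights -/
noncomputable def dS (S : I → ℕ) (s : I) (v : I) : ℕ := if v = s then 2 * S v + 1 else 2 * S v + 2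

theorem dS_s (S : I → ℕ) (s : I) : dS S s s = 2 * S s + 1 := if_pos rfl

theorem dS_ne (S : I → ℕ) {s v : I} (h : v ≠ s) : dS S s v = 2 * S v + 2 := if_neg h

theorem dS_lt (S : I → ℕ) {s v w : I} {p : ℕ} (h : v ≠ s) (hlt : S v < p + S w) :
    dS S s v < 2 * p + dS S s w := by
  rw [dS_ne S h]
  by_cases hw : w = s
  · rw [hw, dS_s]
    rw [hw] at hlt
    omega
  · rw [dS_ne S hw]
    omega

theorem dS_lt' (S : I → ℕ) {s v w : I} {p : ℕ} (h : v ≠ s) (hlt : p + S v < S w) :
    2 * p + dS S s v < dS S s w := by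
  rw [dS_ne S h]
  by_cases hw : w = s
  · rw [hw, dS_s]
    rw [hw] at hlt
    omega
  · rw [dS_ne S hw]
    omega

/-- the modified schedule -/
noncomputable def Sch.dbl (C : Sch D r) {s : I} (hns : ∀ e, C.ph e ≠ s) : Sch D r where
  q := 2 * C.q
  hq := by have := C.hq; omega
  S := dS C.S s
  ty := C.ty
  hl e h := by
    obtain ⟨h1, h2, h3⟩ := C.hl e h
    have h4 : D.cl e ≠ s := by
      have := hns e
      unfold Sch.ph at this
      rwa [h] at this
    exact ⟨h1, h2.imp id fun h5 => by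
        have := dS_lt C.S (p := 0) (w := D.ct e) h4 (by omega)
        omega,
      h3.imp id fun h5 => dS_lt C.S h4 h5⟩
  ht e h := by
    obtain ⟨h1, h2, h3⟩ := C.ht e h
    have h4 : D.ct e ≠ s := by
      have := hns e
      unfold Sch.ph at this
      rwa [h] at this
    exact ⟨h1, h2.imp id fun h5 => by
        have := dS_lt C.S (p := 0) (w := D.cl e) h4 (by omega)
        omega,
      h3.imp id fun h5 => dS_lt C.S h4 h5⟩
  hi e h := by
    obtain ⟨h1, h2, h3⟩ := C.hi e h
    have h4 : D.ci e ≠ s := by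
      have := hns e
      unfold Sch.ph at this
      rwa [h] at this
    exact ⟨h1, h2.imp id fun h5 => dS_lt' C.S h4 h5, h3.imp id fun h5 => dS_lt' C.S h4 h5⟩

theorem Sch.dbl_ph (C : Sch D r) {s : I} (hns : ∀ e, C.ph e ≠ s) (e : E) :
    (C.dbl hns).ph e = C.ph e := rfl

theorem Sch.dbl_m (C : Sch D r) {s : I} (hns : ∀ e, C.ph e ≠ s) (e : E) :
    (C.dbl hns).m e = 2 * C.m e + 2 := by
  have h1 : (C.dbl hns).ty = C.ty := rfl
  have h2 : (C.dbl hns).S = dS C.S s := rfl
  have h3 : (C.dbl hns).q = 2 * C.q := rfl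
  have h4 := hns e
  unfold Sch.ph at h4
  unfold Sch.m
  rw [h1, h2, h3]
  cases h : C.ty e with
  | l =>
    rw [h] at h4
    simp only at h4 ⊢
    rw [dS_ne _ h4]
  | t =>
    rw [h] at h4
    simp only at h4 ⊢
    rw [dS_ne _ h4]
  | i =>
    rw [h] at h4
    simp only at h4 ⊢
    rw [dS_ne _ h4]
    ring

variable [Fintype I] [Fintype E] [DecidableEq I] [DecidableEq E]

theorem sum_erase (σ : E ≃ {x : I // x ≠ r}) (f : I → ℕ) :
    ∑ a, f (σ a).1 = ∑ v ∈ Finset.univ.erase r, f v := by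
  rw [Equiv.sum_comp σ fun x => f x.1]
  exact (Finset.sum_subtype (Finset.univ.erase r) (fun x => by simp) f).symm

omit [Fintype E] [DecidableEq E] in
theorem sum_dS (S : I → ℕ) {s : I} (hs : s ≠ r) :
    ∑ v ∈ Finset.univ.erase r, dS S s v + 1 =
      2 * ∑ v ∈ Finset.univ.erase r, S v + 2 * (Finset.univ.erase r : Finset I).card := by
  have hmem : s ∈ Finset.univ.erase r := Finset.mem_erase.2 ⟨hs, Finset.mem_univ _⟩
  have h1 : ∑ v ∈ Finset.univ.erase r, (2 * S v + 2) =
      2 * ∑ v ∈ Finset.univ.erase r, S v + 2 * (Finset.univ.erase r : Finset I).card := by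
    rw [Finset.sum_add_distrib, Finset.sum_const, ← Finset.mul_sum, smul_eq_mul, mul_comm _ 2]
  rw [← h1, ← Finset.add_sum_erase _ _ hmem, ← Finset.add_sum_erase _ _ hmem, dS_s,
    Finset.sum_congr rfl fun v hv => dS_ne S (Finset.ne_of_mem_erase hv)]
  ring

/-- the superfluous relation -/
theorem exists_e0 (C : Sch D r) (hcard : Fintype.card I = Fintype.card E + 1) {s : I}
    (hsr : s ≠ r) (hns : ∀ e, C.ph e ≠ s)
    (hcov : ∀ v, v ≠ r → v ≠ s → ∃ e, C.ph e = v) :
    ∃ e0, (∀ e e', e ≠ e0 → e' ≠ e0 → C.ph e = C.ph e' → e = e') ∧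
      ∀ v, v ≠ r → v ≠ s → ∃ e, e ≠ e0 ∧ C.ph e = v := by
  have hcard2 : Fintype.card {v : I // v ≠ r ∧ v ≠ s} + 1 = Fintype.card E := by
    have h1 : Fintype.card {v : I // v ≠ r ∧ v ≠ s} =
        ((Finset.univ.erase r).erase s : Finset I).card := by
      rw [Fintype.card_subtype]
      congr 1
      ext v
      simp [and_comm]
    rw [h1, Finset.card_erase_of_mem (Finset.mem_erase.2 ⟨hsr, Finset.mem_univ _⟩),
      Finset.card_erase_of_mem (Finset.mem_univ _), Finset.card_univ]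
    have h2 : 1 < Fintype.card I := Fintype.one_lt_card_iff.2 ⟨s, r, hsr⟩
    omega
  let f : E → {v : I // v ≠ r ∧ v ≠ s} := fun e => ⟨C.ph e, C.ph_ne e, hns e⟩
  have hnot : ¬ Function.Injective f := by
    intro h
    have := Fintype.card_le_of_injective f h
    omega
  have h1 : ∃ e0 e1, f e0 = f e1 ∧ e0 ≠ e1 := by
    by_contra hcon
    push Not at hcon
    exact hnot fun a b hab => hcon a b hab
  obtain ⟨e0, e1, h1, hne⟩ := h1
  have h1' : C.ph e0 = C.ph e1 := congrArg Subtype.val h1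
  have hcov' : ∀ v, v ≠ r → v ≠ s → ∃ e, e ≠ e0 ∧ C.ph e = v := by
    intro v hv hs
    obtain ⟨e, he⟩ := hcov v hv hs
    by_cases hee : e = e0
    · exact ⟨e1, hne.symm, by rw [← h1', ← hee, he]⟩
    · exact ⟨e, hee, he⟩
  refine ⟨e0, ?_, hcov'⟩
  let g : {e : E // e ≠ e0} → {v : I // v ≠ r ∧ v ≠ s} := fun e => f e.1
  have hg : Function.Surjective g := by
    rintro ⟨v, hv, hs⟩
    obtain ⟨e, he, he'⟩ := hcov' v hv hs
    exact ⟨⟨e, he⟩, Subtype.ext he'⟩
  have hcard3 : Fintype.card {e : E // e ≠ e0} + 1 = Fintype.card E := by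
    have h2 : Fintype.card {e : E // e ≠ e0} = (Finset.univ.erase e0 : Finset E).card := by
      rw [Fintype.card_subtype]
      congr 1
      ext v
      simp
    rw [h2, Finset.card_erase_of_mem (Finset.mem_univ _), Finset.card_univ]
    have : 0 < Fintype.card E := Fintype.card_pos_iff.2 ⟨e0⟩
    omega
  have hg' := (Fintype.bijective_iff_surjective_and_card g).2 ⟨hg, by omega⟩
  intro e e' he he' hee
  have := @hg'.1 ⟨e, he⟩ ⟨e', he'⟩ (Subtype.ext hee)
  exact congrArg Subtype.val this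

/-- **A schedule which misses one letter.** -/
theorem locInd_miss (hD : AllOne T D) (hLI : ∀ i, LocInd (G i)) (C : Sch D r)
    (hcard : Fintype.card I = Fintype.card E + 1) (σ : E ≃ {x : I // x ≠ r})
    (hT : Forest D.ci D.ct) {s : I} (hsr : s ≠ r) (hns : ∀ e, C.ph e ≠ s)
    (hcov : ∀ v, v ≠ r → v ≠ s → ∃ e, C.ph e = v)
    (hdeg : C.q * (alex σ ℚ D.ci D.cl D.ct).natTrailingDegree +
      ∑ v ∈ Finset.univ.erase r, C.S v ≤ ∑ e, C.m e + C.q) {Q : Type} [Group Q]
    (π : CoprodI G →* Q) (hsurj : Function.Surjective π)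
    (hker : π.ker = Subgroup.normalClosure (Set.range D.rel)) : LocInd Q := by
  obtain ⟨e0, h1, h2⟩ := exists_e0 C hcard hsr hns hcov
  refine locInd_mis hD hLI (C.dbl hns) (s := s) (e0 := e0) ⟨hsr, h1, h2, hns, ?_⟩ σ hT ?_ π
    hsurj hker
  · intro j k h
    unfold Sch.tm Sch.top at h
    rw [C.dbl_m hns] at h
    have h3 : (C.dbl hns).q = 2 * C.q := rfl
    have h4 : (C.dbl hns).S s = 2 * C.S s + 1 := dS_s _ _
    rw [h3, h4] at h
    push_cast at h
    have h5 : (2 : ℤ) * (C.q * j - C.S s - C.q * (k + 2) + C.m e0) = -1 := by linarith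
    omega
  · intro hd
    have h3 := not_dvd σ ℚ (C.dbl hns).q (C.dbl hns).S (C.dbl hns).m D.ci D.cl D.ct
      (C.dbl hns).hm (C.dbl hns).hq (alex_ne_zero (σ := σ) (K := ℚ) (l := D.cl) hT) _ hd
    rw [sum_erase σ (C.dbl hns).S, Finset.sum_congr rfl fun e _ => C.dbl_m hns e,
      Finset.sum_add_distrib, ← Finset.mul_sum, Finset.sum_const, smul_eq_mul,
      Finset.card_univ] at h3
    have h4 := sum_dS C.S hsr
    have h5 : (Finset.univ.erase r : Finset I).card = Fintype.card E := by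
      rw [Finset.card_erase_of_mem (Finset.mem_univ _), Finset.card_univ, hcard,
        Nat.add_sub_cancel]
    have h6 : (C.dbl hns).q = 2 * C.q := rfl
    have h7 : (C.dbl hns).S = dS C.S s := rfl
    rw [h6, h7] at h3
    rw [h5] at h4
    generalize (alex σ ℚ D.ci D.cl D.ct).natTrailingDegree = δ at *
    generalize ∑ v ∈ Finset.univ.erase r, C.S v = A at *
    generalize ∑ v ∈ Finset.univ.erase r, dS C.S s v = B at *
    generalize ∑ e, C.m e = M at *
    generalize Fintype.card E = n at *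
    nlinarith

end mis

end Pool.Agent.V5helper80.Wt
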