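import Pool.Agent.V5helper80.Wt.Lin

/-!
# The recursion over the time
-/

set_option autoImplicit false

namespace Pool.Agent.V5helper80.Wt

open Monoid (CoprodI)
open Monoid.CoprodI (of)
open Pool.Agent.V5helper80.Rel Pool.Agent.V5helper80.One
open Pool.Agent.TH625.LOG

variable {I E : Type} {G : I → Type} [∀ i, Group (G i)] {T : Hg G} {D : Dat I E G} {r : I}
  {C : Sch D r}

/-- locally indicable configurations -/
def SG (T : Hg G) (C : Sch D r) (A n : ℤ) : Prop :=
  ∃ (X : Type) (_ : Group X) (a : ∀ i, (T.ht i).ker →* X) (Y : I → ℤ → X),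
    LocInd X ∧ Cf C A n a Y

/-- configurations with a new letter -/
def SZ (T : Hg G) (C : Sch D r) (s : I) (A zt n : ℤ) : Prop :=
  ∃ (P : Type) (_ : Group P) (a : ∀ i, (T.ht i).ker →* Ex P) (Y : I → ℤ → Ex P),
    LocInd P ∧ Cf C A n a Y ∧ (∀ i g, ex (a i g) = 1) ∧ (∀ v j, C.tm v j < zt → ex (Y v j) = 1) ∧
      ∀ j, C.tm s j = zt → ex (Y s j) = Multiplicative.ofAdd 1

/-- one letter is never the latest, and one relation is superfluous -/
structure Mis (C : Sch D r) (s : I) (e0 : E) : Prop where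
  sr : s ≠ r
  inj : ∀ e e', e ≠ e0 → e' ≠ e0 → C.ph e = C.ph e' → e = e'
  cov : ∀ v, v ≠ r → v ≠ s → ∃ e, e ≠ e0 ∧ C.ph e = v
  ns : ∀ e, C.ph e ≠ s
  dis : ∀ j k, C.tm s j ≠ C.top e0 k

theorem SG.plain (hD : AllOne T D) {s : I} {e0 : E} (hM : Mis C s e0) {A n : ℤ} (hAn : A ≤ n)
    (ha : ∀ j, C.tm s j ≠ n) (hc : ∀ k, C.top e0 k ≠ n) (h : SG T C A n) : SG T C A (n + 1) := by
  obtain ⟨X, _, a, Y, hX, hcf⟩ := h
  refine ⟨X, _, a, C.stp (· ≠ e0) n 1 a Y, hX, hcf.plain hD hAn hM.inj 1 ?_ ?_⟩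
  · intro v j hv htm
    exact hM.cov v hv (by rintro rfl; exact ha j htm)
  · rintro e k hk rfl
    exact hc k hk

theorem SZ.plain (hD : AllOne T D) {s : I} {e0 : E} (hM : Mis C s e0) {A zt n : ℤ}
    (hAn : A ≤ n) (hzn : zt < n) (ha : ∀ j, C.tm s j ≠ n) (hc : ∀ k, C.top e0 k ≠ n)
    (h : SZ T C s A zt n) : SZ T C s A zt (n + 1) := by
  obtain ⟨P, _, a, Y, hP, hcf, exa, exl, exs⟩ := h
  refine ⟨P, _, a, C.stp (· ≠ e0) n 1 a Y, hP, hcf.plain hD hAn hM.inj 1 ?_ ?_, exa, ?_, ?_⟩
  · intro v j hv htm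
    exact hM.cov v hv (by rintro rfl; exact ha j htm)
  · rintro e k hk rfl
    exact hc k hk
  · intro v j hv
    rw [C.stp_kn (Or.inr (lt_trans hv hzn)), exl v j hv]
  · intro j hj
    rw [C.stp_kn (Or.inr (by omega)), exs j hj]

theorem SG.arrive (hD : AllOne T D) {s : I} {e0 : E} (hM : Mis C s e0) {A n : ℤ} (hAn : A ≤ n)
    {j0 : ℤ} (hj0 : C.tm s j0 = n) (h : SG T C A n) : SZ T C s A n (n + 1) := by
  obtain ⟨X, _, a, Y, hX, hcf⟩ := h
  have hsO : ¬ ∃ e, e ≠ e0 ∧ C.ph e = s := fun ⟨e, _, he⟩ => hM.ns e he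
  refine ⟨X, _, fun i => inA.comp (a i),
    C.stp (· ≠ e0) n (zz : Ex X) (fun i => inA.comp (a i)) fun v j => inA (Y v j), hX,
    hcf.arrive hD hAn hM.inj hM.sr hj0 hsO ?_ ?_, fun i g => ex_inA _, ?_, ?_⟩
  · intro v j hv hvs _
    exact hM.cov v hv hvs
  · rintro e k hk rfl
    exact hM.dis j0 k (hj0.trans hk.symm)
  · intro v j hv
    rw [C.stp_kn (Or.inr hv), ex_inA]
  · intro j hj
    rw [C.stp_free hM.sr hj hsO, ex_zz]

section sol
variable {K : Type} [Field K]

/-- truncated solutions which start with the letter `(s, j0)` -/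
def GSol (T : Hg G) (C : Sch D r) (s : I) (j0 N : ℤ) (Z : I → ℤ → Multiplicative K) : Prop :=
  (∀ j, Z r j = 1) ∧ (∀ v j, C.tm v j < C.tm s j0 → Z v j = 1) ∧
    Z s j0 = Multiplicative.ofAdd 1 ∧
      ∀ e k, C.top e k < N → Eq1 D (fun i => (1 : (T.ht i).ker →* Multiplicative K)) Z e k

theorem GSol.agree {s : I} {j0 N : ℤ} {Z : I → ℤ → Multiplicative K} (hN : C.tm s j0 < N)
    (h : GSol T C s j0 N Z) (O : E → Prop) (f : Multiplicative K) :
    (∀ j, C.stp O N f (fun i => (1 : (T.ht i).ker →* Multiplicative K)) Z r j = 1) ∧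
    (∀ v j, C.tm v j < C.tm s j0 →
      C.stp O N f (fun i => (1 : (T.ht i).ker →* Multiplicative K)) Z v j = 1) ∧
    C.stp O N f (fun i => (1 : (T.ht i).ker →* Multiplicative K)) Z s j0 =
      Multiplicative.ofAdd 1 := by
  refine ⟨fun j => ?_, fun v j hv => ?_, ?_⟩
  · rw [C.stp_kn (Or.inl rfl), h.1]
  · rw [C.stp_kn (Or.inr (lt_trans hv hN)), h.2.1 v j hv]
  · rw [C.stp_kn (Or.inr hN), h.2.2.1]

theorem GSol.plain (hD : AllOne T D) {s : I} {e0 : E} (hM : Mis C s e0) {j0 N : ℤ}
    {Z : I → ℤ → Multiplicative K} (hN : C.tm s j0 < N) (hc : ∀ k, C.top e0 k ≠ N)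
    (h : GSol T C s j0 N Z) : ∃ Z' : I → ℤ → Multiplicative K, GSol T C s j0 (N + 1) Z' := by
  obtain ⟨h1, h2, h3⟩ := h.agree hN (· ≠ e0) 1
  refine ⟨_, h1, h2, h3, fun e k hk => ?_⟩
  rcases (Int.lt_add_one_iff.1 hk).lt_or_eq with h4 | h4
  · exact C.eq_stp_lt hD h4 (h.2.2.2 e k h4)
  · exact C.eq_stp_top hD hM.inj (by rintro rfl; exact hc k h4) h4

theorem GSol.col (hD : AllOne T D) {s : I} {e0 e1 : E} (hM : Mis C s e0) (he1 : e1 ≠ e0)
    (hph : C.ph e0 = C.ph e1) {j0 N k0 k1 : ℤ}
    {Z : I → ℤ → Multiplicative K} (hN : C.tm s j0 < N) (hk0 : C.top e0 k0 = N)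
    (hk1 : C.top e1 k1 = N)
    (hv : C.val (fun i => (1 : (T.ht i).ker →* Multiplicative K)) Z e0 k0 =
      C.val (fun i => (1 : (T.ht i).ker →* Multiplicative K)) Z e1 k1)
    (h : GSol T C s j0 N Z) : ∃ Z' : I → ℤ → Multiplicative K, GSol T C s j0 (N + 1) Z' := by
  obtain ⟨h1, h2, h3⟩ := h.agree hN (· ≠ e0) 1
  refine ⟨_, h1, h2, h3, fun e k hk => ?_⟩
  rcases (Int.lt_add_one_iff.1 hk).lt_or_eq with h4 | h4
  · exact C.eq_stp_lt hD h4 (h.2.2.2 e k h4)
  · by_cases he : e = e0
    · subst he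
      have hkk : k = k0 := by
        have h5 : C.top e k = C.top e k0 := h4.trans hk0.symm
        unfold Sch.top at h5
        have : (C.q : ℤ) * (k + 2) = C.q * (k0 + 2) := by linarith
        have := mul_left_cancel₀ C.q_pos.ne' this
        omega
      subst hkk
      exact C.eq_stp_col hD hM.inj he1 hph hk1 hk0 hv
    · exact C.eq_stp_top hD hM.inj he h4

theorem GSol.iter (hD : AllOne T D) {s : I} {e0 : E} (hM : Mis C s e0) {j0 N N' : ℤ}
    (hN : C.tm s j0 < N) (hNN : N ≤ N') (hc : ∀ k, C.top e0 k < N ∨ N' ≤ C.top e0 k)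
    (h : ∃ Z : I → ℤ → Multiplicative K, GSol T C s j0 N Z) :
    ∃ Z : I → ℤ → Multiplicative K, GSol T C s j0 N' Z := by
  obtain ⟨d, rfl⟩ := Int.le.dest hNN
  clear hNN
  induction d with
  | zero => simpa using h
  | succ d ih =>
    obtain ⟨Z, hZ⟩ := ih fun k => (hc k).imp id fun h => by push_cast at h; omega
    have h1 := hZ.plain hD hM (by omega) (fun k hk => by
      rcases hc k with h2 | h2
      · omega
      · push_cast at h2
        omega)
    push_cast
    rwa [← add_assoc]

theorem cc_shift (Z : I → ℤ → Multiplicative K) (v : I) (j u : ℤ) (g : G v) :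
    cc T (fun i => (1 : (T.ht i).ker →* Multiplicative K)) (fun v j => Z v (j + u)) v j g =
      cc T (fun i => (1 : (T.ht i).ker →* Multiplicative K)) Z v (j + u) g := by
  unfold cc
  simp only [MonoidHom.one_apply]
  rw [add_right_comm]

theorem val_shift (Z : I → ℤ → Multiplicative K) (e : E) (k u : ℤ) :
    C.val (fun i => (1 : (T.ht i).ker →* Multiplicative K)) (fun v j => Z v (j + u)) e k =
      C.val (fun i => (1 : (T.ht i).ker →* Multiplicative K)) Z e (k + u) := by
  unfold Sch.val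
  cases h : C.ty e with
  | l =>
    simp only [cc_shift, MonoidHom.one_apply]
    rw [add_right_comm]
  | t =>
    simp only [cc_shift, MonoidHom.one_apply]
    rw [add_right_comm]
  | i =>
    simp only [cc_shift, MonoidHom.one_apply]
    rw [add_right_comm]

/-- the trivial part of a solution -/
theorem eq_triv (hD : AllOne T D) {Z : I → ℤ → Multiplicative K} (e : E) (k : ℤ)
    (h : ∀ v j, C.kn (C.top e k) v j → Z v j = 1) (h1 : Z (C.ph e) (k + C.off e) = 1) :
    Eq1 D (fun i => (1 : (T.ht i).ker →* Multiplicative K)) Z e k := by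
  rw [C.eq_iff hD, h1]
  have h2 := C.val_map hD (1 : Multiplicative K →* Multiplicative K)
    (α := fun i => (1 : (T.ht i).ker →* Multiplicative K)) (Y := Z)
    (α' := fun i => (1 : (T.ht i).ker →* Multiplicative K)) (Y' := Z) (fun _ _ => rfl) e k
    (fun v j hv => (h v j hv).symm)
  exact h2

end sol

/-- collisions are periodic -/
theorem top_add (e : E) (k u : ℤ) : C.top e (k + u) = C.top e k + C.q * u := by
  unfold Sch.top
  ring

theorem tm_add (v : I) (j u : ℤ) : C.tm v (j + u) = C.tm v j + C.q * u := by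
  unfold Sch.tm
  ring

theorem same_top {e0 e1 : E} (hph : C.ph e0 = C.ph e1) (k0 : ℤ) :
    ∃ k1, C.top e1 k1 = C.top e0 k0 := by
  refine ⟨k0 + C.off e0 - C.off e1, ?_⟩
  rw [← C.tm_ph, ← C.tm_ph, hph, sub_add_cancel]

/-- collisions between two arrivals -/
theorem col_near {s : I} {e0 : E} {j0 k0 k : ℤ} (h1 : C.tm s j0 < C.top e0 k0)
    (h2 : C.top e0 k0 < C.tm s j0 + C.q) (h3 : C.tm s j0 < C.top e0 k)
    (h4 : C.top e0 k < C.tm s j0 + C.q) : k = k0 := by
  unfold Sch.top at *
  have hq := C.q_pos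
  by_contra hne
  rcases lt_or_gt_of_ne hne with h | h
  · nlinarith
  · nlinarith

theorem arr_near {s : I} {j0 j : ℤ} (h1 : C.tm s j0 < C.tm s j)
    (h2 : C.tm s j < C.tm s j0 + C.q) : False := by
  unfold Sch.tm at *
  have hq := C.q_pos
  rcases le_or_gt j j0 with h | h
  · nlinarith
  · nlinarith

open Classical in
/-- the collision -/
theorem SZ.collide [Fintype I] [Fintype E] [DecidableEq I] [DecidableEq E] (hD : AllOne T D)
    {s : I} {e0 : E} (hM : Mis C s e0)
    (σ : E ≃ {x : I // x ≠ r}) (hT : Forest D.ci D.ct)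
    (hdet : ¬ (Polynomial.X : Polynomial ℚ) ^ (C.q + 1) ∣
      (wmat σ ℚ C.q C.S C.m D.ci D.cl D.ct).det)
    {A j0 k0 : ℤ} (hA : A ≤ C.tm s j0) (h1 : C.tm s j0 < C.top e0 k0)
    (h2 : C.top e0 k0 < C.tm s j0 + C.q) (h : SZ T C s A (C.tm s j0) (C.top e0 k0)) :
    SG T C A (C.top e0 k0 + 1) := by
  obtain ⟨P, _, a, Y, hP, hcf, exa, exl, exs⟩ := h
  obtain ⟨e1, he1, hph⟩ := hM.cov (C.ph e0) (C.ph_ne e0) (hM.ns e0)
  obtain ⟨k1, hk1⟩ := same_top hph.symm k0
  set w := (C.val a Y e1 k1)⁻¹ * C.val a Y e0 k0 with hw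
  have hq := C.q_pos
  have hjlow : ∀ (K : Type) [Field K] (Z : I → ℤ → Multiplicative K), (∀ j, Z r j = 1) →
      (∀ v j, C.tm v j < C.tm s j0 → Z v j = 1) → ∀ e k, C.top e k < C.tm s j0 →
      Eq1 D (fun i => (1 : (T.ht i).ker →* Multiplicative K)) Z e k := by
    intro K _ Z hZr hZ e k hk
    refine eq_triv hD (C := C) e k (fun v j hv => ?_) ?_
    · rcases hv with hv | hv
      · rw [hv, hZr]
      · exact hZ v j (lt_trans hv hk)
    · exact hZ _ _ (by rw [C.tm_ph]; exact hk)
  -- the exponent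
  have hex : ex w ≠ 1 := by
    intro hew
    apply hdet
    let cst : Multiplicative ℤ →* Multiplicative ℚ :=
      AddMonoidHom.toMultiplicative (Int.castAddHom ℚ)
    let F : Ex P →* Multiplicative ℚ := cst.comp ex
    have hFa : ∀ i g, F (a i g) = (1 : (T.ht i).ker →* Multiplicative ℚ) g := fun i g => by
      show cst (ex (a i g)) = 1
      rw [exa, map_one]
    let Z : I → ℤ → Multiplicative ℚ := fun v j => F (Y v j)
    have hZ : GSol T C s j0 (C.top e0 k0) Z := by
      refine ⟨fun j => ?_, fun v j hv => ?_, ?_, fun e k hk => ?_⟩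
      · show F (Y r j) = 1
        rw [hcf.gauge, map_one]
      · show cst (ex (Y v j)) = 1
        rw [exl v j hv, map_one]
      · show cst (ex (Y s j0)) = _
        rw [exs j0 rfl]
        show Multiplicative.ofAdd ((Int.cast (1 : ℤ)) : ℚ) = _
        rw [Int.cast_one]
      · by_cases hAk : A ≤ C.top e k
        · exact C.eq_map hD F hFa e k _ hk (fun _ _ _ => rfl) (hcf.eqs e k hAk hk)
        · refine hjlow ℚ Z (fun j => ?_) (fun v j hv => ?_) e k (by omega)
          · show F (Y r j) = 1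
            rw [hcf.gauge, map_one]
          · show cst (ex (Y v j)) = 1
            rw [exl v j hv, map_one]
    have hval : C.val (fun i => (1 : (T.ht i).ker →* Multiplicative ℚ)) Z e0 k0 =
        C.val (fun i => (1 : (T.ht i).ker →* Multiplicative ℚ)) Z e1 k1 := by
      rw [← C.val_map hD F hFa e0 k0 (fun _ _ _ => rfl),
        ← C.val_map hD F hFa e1 k1 (fun _ _ _ => rfl)]
      have h3 : F w = 1 := by
        show cst (ex w) = 1
        rw [hew, map_one]
      rw [hw, map_mul, map_inv, inv_mul_eq_one] at h3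
      exact h3.symm
    have h3 := hZ.col hD hM he1 hph.symm h1 rfl hk1 hval
    obtain ⟨Z', hZ'⟩ := GSol.iter (N' := C.top e0 k0 + C.q) hD hM (by omega) (by omega)
      (fun k => by
        by_contra hcon
        push Not at hcon
        obtain ⟨h4, h5⟩ := hcon
        unfold Sch.top at *
        have : k0 < k := by
          by_contra h6
          push Not at h6
          nlinarith
        have : k < k0 + 1 := by
          by_contra h6
          push Not at h6
          nlinarith
        omega) h3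
    have h4 := dvd_of_sol C σ hD Z' (C.top e0 k0 + C.q) (C.tm s j0) hZ'.1 hZ'.2.1 hZ'.2.2.2 s
      hM.sr j0 rfl (by
        rw [hZ'.2.2.1]
        intro h5
        have := congrArg Multiplicative.toAdd h5
        rw [toAdd_ofAdd, toAdd_one] at this
        exact one_ne_zero this)
    exact (pow_dvd_pow _ (by omega)).trans h4
  -- no proper power
  have hprop : ∀ (v : Ex P) (κ : ℤ), v ^ κ = w → κ = 1 ∨ κ = -1 := by
    intro v κ hv
    by_contra hk
    have hk2 : κ.natAbs ≠ 1 := by
      intro h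
      exact hk (Int.natAbs_eq_iff.1 h)
    obtain ⟨p, hp, hpk⟩ := Nat.exists_prime_and_dvd hk2
    have : Fact p.Prime := ⟨hp⟩
    have hpk' : ((κ : ℤ) : ZMod p) = 0 := by
      rw [ZMod.intCast_zmod_eq_zero_iff_dvd]
      exact Int.natCast_dvd.2 hpk
    have hwF : ∀ F : Ex P →* Multiplicative (ZMod p), F w = 1 := by
      intro F
      apply Multiplicative.toAdd.injective
      rw [← hv, map_zpow, toAdd_zpow, toAdd_one, zsmul_eq_mul, hpk', zero_mul]
    have hstar : ∀ Z : I → ℤ → Multiplicative (ZMod p), (∀ j, Z r j = 1) →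
        (∀ e k, C.top e k < C.top e0 k0 →
          Eq1 D (fun i => (1 : (T.ht i).ker →* Multiplicative (ZMod p))) Z e k) →
        C.val (fun i => (1 : (T.ht i).ker →* Multiplicative (ZMod p))) Z e0 k0 =
          C.val (fun i => (1 : (T.ht i).ker →* Multiplicative (ZMod p))) Z e1 k1 := by
      intro Z hZr hZE
      obtain ⟨F, hFa, hFY⟩ := hcf.univ _ (fun i => (1 : (T.ht i).ker →* Multiplicative (ZMod p)))
        Z hZr fun e k _ hk => hZE e k hk
      have h3 := hwF F
      rw [hw, map_mul, map_inv, inv_mul_eq_one,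
        C.val_map hD F hFa e1 k1 fun v j hv => hFY v j (by rw [hk1] at hv; exact hv),
        C.val_map hD F hFa e0 k0 fun v j hv => hFY v j hv] at h3
      exact h3.symm
    have hall : ∀ d : ℕ, ∃ Z : I → ℤ → Multiplicative (ZMod p),
        GSol T C s j0 (C.tm s j0 + 1 + d) Z := by
      intro d
      induction d with
      | zero =>
        refine ⟨fun v j => if v = s ∧ j = j0 then Multiplicative.ofAdd 1 else 1, fun j => ?_,
          fun v j hv => ?_, ?_, fun e k hk => ?_⟩
        · exact if_neg (fun h => hM.sr h.1.symm)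
        · refine if_neg ?_
          rintro ⟨rfl, rfl⟩
          exact lt_irrefl _ hv
        · exact if_pos ⟨rfl, rfl⟩
        · refine eq_triv hD (C := C) e k (fun v j hv => ?_) ?_
          · refine if_neg ?_
            rintro ⟨rfl, rfl⟩
            rcases hv with hv | hv
            · exact hM.sr hv
            · push_cast at hk
              omega
          · exact if_neg fun h => hM.ns e h.1
      | succ d ih =>
        obtain ⟨Z, hZ⟩ := ih
        have hgoal : C.tm s j0 + 1 + ((d + 1 : ℕ) : ℤ) = C.tm s j0 + 1 + (d : ℤ) + 1 := by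
          push_cast; ring
        rw [hgoal]
        by_cases hcol : ∃ k, C.top e0 k = C.tm s j0 + 1 + (d : ℤ)
        · obtain ⟨k, hk⟩ := hcol
          -- shift
          have hu : k0 ≤ k := by
            by_contra hlt
            push Not at hlt
            have h3 : C.top e0 k + C.q ≤ C.top e0 k0 := by
              unfold Sch.top
              nlinarith
            omega
          have h3 := hstar (fun v j => Z v (j + (k - k0))) (fun j => hZ.1 _) (fun e k' hk' => by
            have h4 := hZ.2.2.2 e (k' + (k - k0)) (by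
              rw [top_add]
              have h5 : C.top e0 (k0 + (k - k0)) = C.top e0 k0 + C.q * (k - k0) := top_add _ _ _
              rw [add_sub_cancel] at h5
              linarith)
            rw [eq1_one hD] at h4 ⊢
            unfold dh at h4 ⊢
            simp only at h4 ⊢
            rw [show k' + 1 + (k - k0) = k' + (k - k0) + 1 by ring,
              show k' + 1 + 1 + (k - k0) = k' + (k - k0) + 1 + 1 by ring]
            exact h4)
          rw [val_shift, val_shift, add_sub_cancel] at h3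
          refine hZ.col hD hM he1 hph.symm (by omega) hk ?_ h3
          rw [top_add, hk1]
          have h5 : C.top e0 (k0 + (k - k0)) = C.top e0 k0 + C.q * (k - k0) := top_add _ _ _
          rw [add_sub_cancel] at h5
          rw [← h5, hk]
        · push Not at hcol
          exact hZ.plain hD hM (by omega) hcol
    have hne := wdet_ne σ (ZMod p) C.q C.S C.m D.ci D.cl D.ct C.hm C.hq
      (alex_ne_zero (σ := σ) (K := ZMod p) (l := D.cl) hT)
    obtain ⟨Z, hZ⟩ := hall (wmat σ (ZMod p) C.q C.S C.m D.ci D.cl D.ct).det.natDegree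
    have h4 := dvd_of_sol C σ hD Z _ (C.tm s j0) hZ.1 hZ.2.1 hZ.2.2.2 s
      hM.sr j0 rfl (by
        rw [hZ.2.2.1]
        intro h5
        have := congrArg Multiplicative.toAdd h5
        rw [toAdd_ofAdd, toAdd_one] at this
        exact one_ne_zero this)
    have h5 := Polynomial.natDegree_le_of_dvd h4 hne
    rw [Polynomial.natDegree_X_pow] at h5
    omega
  let mk : Ex P →* Ex P ⧸ Subgroup.normalClosure {w} := QuotientGroup.mk' _
  refine ⟨Ex P ⧸ Subgroup.normalClosure {w}, _, fun i => mk.comp (a i),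
    C.stp (· ≠ e0) (C.top e0 k0) 1 (fun i => mk.comp (a i)) fun v j => mk (Y v j),
    locInd_ex hP w hex hprop,
    hcf.collide hD (by omega) hM.inj he1 hph.symm rfl hk1 ?_ ?_ mk rfl⟩
  · intro v j hv htm
    exact hM.cov v hv (by rintro rfl; exact hM.dis j k0 htm)
  · intro e k _
    by_cases he : e = e0
    · exact Or.inr he
    · exact Or.inl he

end Pool.Agent.V5helper80.Wt
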